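import Pool.Agent.F2.O.Base

/-!
# Project F2, block O, row A: the greedy algorithm
-/

set_option autoImplicit false
set_option linter.unusedSectionVars false

namespace F2.O

open Finset NW F1

section Gr

variable {V : Type} [Fintype V] [DecidableEq V] {ι : Type} [Fintype ι] [DecidableEq ι]

/-- the load of a vertex: the number of finished tasks which use it as a new vertex -/
def grLoad (T : Finset ι) (G : ι → Finset V) (A : ι → Finset (Sym2 V)) (v : V) : ℕ :=
  (T.filter (fun i => v ∈ vE (A i) ∧ v ∉ G i)).card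

theorem gr_deg (T : Finset ι) (G : ι → Finset V) (A : ι → Finset (Sym2 V)) (c₂ : ℕ)
    (h : ∀ i ∈ T, (A i).card ≤ c₂) (v : V) :
    NW.deg (T.biUnion A) v ≤
      c₂ * ((univ.filter (fun i => v ∈ G i)).card + grLoad T G A v) := by
  refine (deg_biUnion_le' T A v c₂ h).trans (Nat.mul_le_mul_left _ ?_)
  unfold grLoad
  refine le_trans (card_le_card ?_) (card_union_le _ _)
  intro i hi
  rw [mem_filter] at hi
  rw [mem_union, mem_filter, mem_filter]
  by_cases h1 : v ∈ G i
  · exact Or.inl ⟨mem_univ _, h1⟩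
  · exact Or.inr ⟨hi.1, hi.2, h1⟩

theorem gr_load_sum (T : Finset ι) (G : ι → Finset V) (A : ι → Finset (Sym2 V)) (c₂ : ℕ)
    (h : ∀ i ∈ T, (A i).card ≤ c₂) :
    ∑ v, grLoad T G A v ≤ 2 * c₂ * T.card := by
  have h1 : ∀ v, grLoad T G A v = ∑ i ∈ T, (if v ∈ vE (A i) ∧ v ∉ G i then 1 else 0) := by
    intro v
    unfold grLoad
    rw [card_eq_sum_ones, sum_filter]
  simp_rw [h1]
  rw [sum_comm]
  have h2 : ∀ i ∈ T, ∑ v : V, (if v ∈ vE (A i) ∧ v ∉ G i then 1 else 0) ≤ 2 * c₂ := by
    intro i hi
    rw [← sum_filter, ← card_eq_sum_ones]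
    refine le_trans (card_le_card (t := vE (A i)) ?_)
      ((vE_card (A i)).trans (Nat.mul_le_mul_left _ (h i hi)))
    intro v hv
    exact (mem_filter.1 hv).2.1
  refine (sum_le_sum h2).trans ?_
  rw [sum_const, smul_eq_mul, mul_comm]

/-- the set of overloaded vertices is small -/
theorem gr_over (T : Finset ι) (G : ι → Finset V) (A : ι → Finset (Sym2 V)) (c₀ c₂ c₃ s n : ℕ)
    (h : ∀ i ∈ T, (A i).card ≤ c₂) (hn : 1 ≤ n) (hT : T.card * s ≤ c₀ * n ^ 2) :
    (univ.filter (fun v => c₃ * n ≤ grLoad T G A v * s)).card * c₃ ≤ 2 * c₂ * c₀ * n := by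
  set F := univ.filter (fun v => c₃ * n ≤ grLoad T G A v * s) with hF
  have h1 : F.card * (c₃ * n) ≤ ∑ v ∈ F, grLoad T G A v * s := by
    rw [← smul_eq_mul]
    exact card_nsmul_le_sum F _ _ (fun v hv => (mem_filter.1 hv).2)
  have h2 : ∑ v ∈ F, grLoad T G A v * s ≤ (∑ v, grLoad T G A v) * s := by
    rw [sum_mul]
    exact sum_le_sum_of_subset (subset_univ F)
  have h3 := gr_load_sum T G A c₂ h
  have h4 : (∑ v, grLoad T G A v) * s ≤ 2 * c₂ * (c₀ * n ^ 2) := by
    calc (∑ v, grLoad T G A v) * s ≤ 2 * c₂ * T.card * s := Nat.mul_le_mul_right _ h3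
      _ = 2 * c₂ * (T.card * s) := by ring
      _ ≤ 2 * c₂ * (c₀ * n ^ 2) := Nat.mul_le_mul_left _ hT
  have h5 : F.card * c₃ * n ≤ 2 * c₂ * c₀ * n * n := by
    calc F.card * c₃ * n = F.card * (c₃ * n) := by ring
      _ ≤ 2 * c₂ * (c₀ * n ^ 2) := h1.trans (h2.trans h4)
      _ = 2 * c₂ * c₀ * n * n := by ring
  exact Nat.le_of_mul_le_mul_right h5 hn

end Gr

theorem greedy : GreedyStatement := by
  intro c₀ c₂ η hη
  obtain ⟨c₃, hc₃⟩ := exists_nat_gt (2 * (c₂ : ℝ) * c₀ / η)
  have hc₃' : 2 * (c₂ : ℝ) * c₀ ≤ η * c₃ := by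
    rw [div_lt_iff₀ hη] at hc₃
    linarith [mul_comm (c₃ : ℝ) η]
  have hc₃0 : 0 < c₃ := by
    have : (0 : ℝ) ≤ 2 * (c₂ : ℝ) * c₀ / η := by positivity
    exact_mod_cast this.trans_lt hc₃
  refine ⟨c₂ * (c₀ + (c₃ + 1)), ?_⟩
  intro V _ _ H s ι _ _ G P hs1 hsn hι hG hsol
  set n := Fintype.card V with hn
  have hn1 : 1 ≤ n := hs1.trans hsn
  -- the invariant
  have key : ∀ T : Finset ι, ∃ A : ι → Finset (Sym2 V),
      (∀ i ∈ T, A i ⊆ H ∧ (A i).card ≤ c₂ ∧ P i (A i)) ∧
      (∀ i ∈ T, ∀ j ∈ T, i ≠ j → Disjoint (A i) (A j)) ∧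
      ∀ v, grLoad T G A v * s ≤ (c₃ + 1) * n := by
    intro T
    induction T using Finset.induction_on with
    | empty =>
      refine ⟨fun _ => ∅, by simp, by simp, ?_⟩
      intro v
      simp [grLoad]
    | insert i T hi ih =>
      obtain ⟨A, hA, hdis, hload⟩ := ih
      have hcardA : ∀ j ∈ T, (A j).card ≤ c₂ := fun j hj => (hA j hj).2.1
      have hZ : ∀ v, NW.deg (T.biUnion A) v * s ≤ c₂ * (c₀ + (c₃ + 1)) * n := by
        intro v
        calc NW.deg (T.biUnion A) v * s
            ≤ c₂ * ((univ.filter (fun i => v ∈ G i)).card + grLoad T G A v) * s :=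
              Nat.mul_le_mul_right _ (gr_deg T G A c₂ hcardA v)
          _ = c₂ * ((univ.filter (fun i => v ∈ G i)).card * s + grLoad T G A v * s) := by ring
          _ ≤ c₂ * (c₀ * n + (c₃ + 1) * n) :=
              Nat.mul_le_mul_left _ (Nat.add_le_add (hG v) (hload v))
          _ = c₂ * (c₀ + (c₃ + 1)) * n := by ring
      have hTs : T.card * s ≤ c₀ * n ^ 2 :=
        (Nat.mul_le_mul_right _ (card_le_univ T)).trans hι
      have hF0 := gr_over T G A c₀ c₂ c₃ s n hcardA hn1 hTs
      have hF : ((univ.filter (fun v => c₃ * n ≤ grLoad T G A v * s)).card : ℝ) ≤ η * n := by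
        have h1 : ((univ.filter (fun v => c₃ * n ≤ grLoad T G A v * s)).card : ℝ) * c₃ ≤
            2 * c₂ * c₀ * n := by exact_mod_cast hF0
        have h2 : 2 * (c₂ : ℝ) * c₀ * n ≤ η * c₃ * n :=
          mul_le_mul_of_nonneg_right hc₃' (Nat.cast_nonneg n)
        have h3 : (0 : ℝ) < c₃ := by exact_mod_cast hc₃0
        refine le_of_mul_le_mul_right ?_ h3
        calc _ ≤ 2 * (c₂ : ℝ) * c₀ * n := h1
          _ ≤ η * c₃ * n := h2
          _ = η * n * c₃ := by ring
      obtain ⟨B, hBsub, hBcard, hBF, hBP⟩ := hsol i (T.biUnion A) _ hZ hF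
      have hne : ∀ j ∈ T, j ≠ i := by
        rintro j hj rfl
        exact hi hj
      have hBH : B ⊆ H := fun e he => (mem_sdiff.1 (hBsub he)).1
      have hBdis : ∀ j ∈ T, Disjoint B (A j) := by
        intro j hj
        rw [disjoint_left]
        intro e he hej
        exact (mem_sdiff.1 (hBsub he)).2 (mem_biUnion.2 ⟨j, hj, hej⟩)
      refine ⟨fun j => if j = i then B else A j, ?_, ?_, ?_⟩
      · intro j hj
        show (if j = i then B else A j) ⊆ H ∧ (if j = i then B else A j).card ≤ c₂ ∧
          P j (if j = i then B else A j)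
        by_cases hji : j = i
        · subst hji
          rw [if_pos rfl]
          exact ⟨hBH, hBcard, hBP⟩
        · rw [if_neg hji]
          exact hA j ((mem_insert.1 hj).resolve_left hji)
      · intro j hj k hk hjk
        show Disjoint (if j = i then B else A j) (if k = i then B else A k)
        by_cases hji : j = i
        · have hki : k ≠ i := fun h => hjk (hji.trans h.symm)
          rw [if_pos hji, if_neg hki]
          exact hBdis k ((mem_insert.1 hk).resolve_left hki)
        · rw [if_neg hji]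
          have hjT := (mem_insert.1 hj).resolve_left hji
          by_cases hki : k = i
          · rw [if_pos hki]
            exact (hBdis j hjT).symm
          · rw [if_neg hki]
            exact hdis j hjT k ((mem_insert.1 hk).resolve_left hki) hjk
      · intro v
        have hsame : T.filter (fun j => v ∈ vE (if j = i then B else A j) ∧ v ∉ G j) =
            T.filter (fun j => v ∈ vE (A j) ∧ v ∉ G j) := by
          refine filter_congr fun j hj => ?_
          rw [if_neg (hne j hj)]
        have hload2 : grLoad (insert i T) G (fun j => if j = i then B else A j) v ≤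
            grLoad T G A v + (if v ∈ vE B ∧ v ∉ G i then 1 else 0) := by
          unfold grLoad
          rw [filter_insert, hsame]
          simp only [if_true]
          split_ifs with h1
          · exact card_insert_le _ _
          · exact le_rfl
        by_cases h1 : v ∈ vE B ∧ v ∉ G i
        · rw [if_pos h1] at hload2
          have h2 : v ∉ univ.filter (fun v => c₃ * n ≤ grLoad T G A v * s) := by
            rcases hBF v h1.1 with h | h
            · exact absurd h h1.2
            · exact h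
          have h3 : grLoad T G A v * s < c₃ * n := by
            by_contra hcon
            exact h2 (mem_filter.2 ⟨mem_univ _, not_lt.1 hcon⟩)
          calc _ ≤ (grLoad T G A v + 1) * s := Nat.mul_le_mul_right _ hload2
            _ = grLoad T G A v * s + s := by ring
            _ ≤ c₃ * n + n := Nat.add_le_add h3.le hsn
            _ = (c₃ + 1) * n := by ring
        · rw [if_neg h1, add_zero] at hload2
          exact (Nat.mul_le_mul_right _ hload2).trans (hload v)
  obtain ⟨A, hA, hdis, hload⟩ := key univ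
  refine ⟨A, fun i => hA i (mem_univ i), fun i j hij => hdis i (mem_univ i) j (mem_univ j) hij, ?_⟩
  intro v
  calc NW.deg (univ.biUnion A) v * s
      ≤ c₂ * ((univ.filter (fun i => v ∈ G i)).card + grLoad univ G A v) * s :=
        Nat.mul_le_mul_right _ (gr_deg univ G A c₂ (fun i hi => (hA i hi).2.1) v)
    _ = c₂ * ((univ.filter (fun i => v ∈ G i)).card * s + grLoad univ G A v * s) := by ring
    _ ≤ c₂ * (c₀ * n + (c₃ + 1) * n) :=
        Nat.mul_le_mul_left _ (Nat.add_le_add (hG v) (hload v))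
    _ = c₂ * (c₀ + (c₃ + 1)) * n := by ring

end F2.O
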