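import Pool.Agent.F2.O.Spec
import Pool.Agent.NW.Final

/-!
# Project F2, block O, row B: common neighbours in the host
-/

set_option autoImplicit false
set_option linter.unusedSectionVars false

namespace F2.O

open Finset NW F1

theorem host_deg_sdiff {V : Type} [Fintype V] [DecidableEq V] (A B : Finset (Sym2 V)) (v : V) :
    (NW.deg A v : ℝ) - NW.deg B v ≤ (NW.deg (A \ B) v : ℝ) := by
  have h : NW.deg A v ≤ NW.deg (A \ B) v + NW.deg B v := by
    unfold NW.deg
    rw [NW.nbr_sdiff]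
    have := Finset.le_card_sdiff (NW.nbr B v) (NW.nbr A v)
    omega
  have h' : (NW.deg A v : ℝ) ≤ (NW.deg (A \ B) v : ℝ) + NW.deg B v := by exact_mod_cast h
  linarith

theorem host_deg_Xs {V : Type} [Fintype V] [DecidableEq V] {E : Finset (Sym2 V)} {s : ℕ}
    {ro co : V → ℕ} (hG : Grid E s ro co) (v : V) :
    NW.deg (Xs ro co E) v * s ≤ 4 * Fintype.card V := by
  have h1 : NW.nbr (Xs ro co E) v ⊆ Rw ro (ro v) ∪ Rw co (co v) := by
    intro u hu
    rw [NW.mem_nbr] at hu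
    unfold Xs at hu
    rw [Finset.mem_filter] at hu
    obtain ⟨-, a, b, hab, h⟩ := hu
    rw [Sym2.eq_iff] at hab
    rw [Finset.mem_union]
    unfold Rw
    rw [Finset.mem_filter, Finset.mem_filter]
    rcases hab with ⟨rfl, rfl⟩ | ⟨rfl, rfl⟩
    · rcases h with h | h
      · exact Or.inl ⟨Finset.mem_univ _, h.symm⟩
      · exact Or.inr ⟨Finset.mem_univ _, h.symm⟩
    · rcases h with h | h
      · exact Or.inl ⟨Finset.mem_univ _, h⟩
      · exact Or.inr ⟨Finset.mem_univ _, h⟩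
  have h2 : NW.deg (Xs ro co E) v ≤ (Rw ro (ro v)).card + (Rw co (co v)).card :=
    (Finset.card_le_card h1).trans (Finset.card_union_le _ _)
  calc NW.deg (Xs ro co E) v * s ≤ ((Rw ro (ro v)).card + (Rw co (co v)).card) * s :=
        Nat.mul_le_mul_right _ h2
    _ = (Rw ro (ro v)).card * s + (Rw co (co v)).card * s := Nat.add_mul _ _ _
    _ ≤ 2 * Fintype.card V + 2 * Fintype.card V := Nat.add_le_add (hG.row _) (hG.col _)
    _ = 4 * Fintype.card V := by ring

theorem host : HostStatement := by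
  intro ε c₁ hε
  refine ⟨⌈2 * (4 + (c₁ : ℝ)) / ε⌉₊ + 1, Nat.le_add_left _ _, ?_⟩
  intro V _ _ E s ro co hE hG hs hdeg
  refine ⟨host_deg_Xs hG, ?_⟩
  intro Z S F hS hZ hF
  have hs1 : 2 * (4 + (c₁ : ℝ)) / ε ≤ s := by
    have h1 : (⌈2 * (4 + (c₁ : ℝ)) / ε⌉₊ : ℝ) + 1 ≤ s := by exact_mod_cast hs
    have h2 := Nat.le_ceil (2 * (4 + (c₁ : ℝ)) / ε)
    linarith
  have hspos : (0 : ℝ) < s := lt_of_lt_of_le (by positivity) hs1
  have hs2 : 2 * (4 + (c₁ : ℝ)) ≤ ε * s := by
    rw [div_le_iff₀ hε] at hs1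
    linarith
  have hn : (0 : ℝ) ≤ Fintype.card V := Nat.cast_nonneg _
  have key : ∀ v, (3 / 4 + ε / 2) * (Fintype.card V : ℝ) ≤
      (NW.deg ((E \ Xs ro co E) \ Z) v : ℝ) := by
    intro v
    have h1 := host_deg_sdiff (E \ Xs ro co E) Z v
    have h2 := host_deg_sdiff E (Xs ro co E) v
    have h3 := hdeg v
    have h4 : (NW.deg (Xs ro co E) v : ℝ) * s ≤ 4 * Fintype.card V := by
      exact_mod_cast host_deg_Xs hG v
    have h5 : (NW.deg Z v : ℝ) * s ≤ c₁ * Fintype.card V := by exact_mod_cast hZ v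
    have h6 : ((NW.deg (Xs ro co E) v : ℝ) + NW.deg Z v) * s ≤
        ε / 2 * Fintype.card V * s := by
      calc ((NW.deg (Xs ro co E) v : ℝ) + NW.deg Z v) * s ≤
            (4 + c₁) * Fintype.card V := by linarith
        _ ≤ (ε * s / 2) * Fintype.card V :=
            mul_le_mul_of_nonneg_right (by linarith) hn
        _ = _ := by ring
    have h7 := le_of_mul_le_mul_right h6 hspos
    linarith
  have h8 := NW.card_cnbr key S F hS
  linarith

end F2.O
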