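import Pool.Agent.F2.O.Spec

/-!
# Block O, row C: pieces exist
-/

set_option autoImplicit false

namespace F2.O

open Finset NW F1

section

variable {V : Type} [Fintype V] [DecidableEq V]

theorem pc_pick {E : Finset (Sym2 V)} {F S : Finset V} (h : 8 ≤ (cnbr E S F).card) (T : Finset V)
    (hT : T.card ≤ 7) : ∃ z, z ∉ T ∧ z ∉ F ∧ ∀ x ∈ S, s(x, z) ∈ E := by
  have h1 : ¬ cnbr E S F ⊆ T := fun hs => by
    have := Finset.card_le_card hs
    omega
  obtain ⟨z, hz, hzT⟩ := Finset.not_subset.1 h1
  obtain ⟨hzF, hzE⟩ := (Finset.mem_filter.1 hz).2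
  exact ⟨z, hzT, hzF, hzE⟩

theorem pc_path {E : Finset (Sym2 V)} {F : Finset V} {u v p q : V} (hnl : NW.NL E) (huv : u ≠ v)
    (hpu : p ≠ u) (hpv : p ≠ v) (hqu : q ≠ u) (hqv : q ≠ v) (hqp : q ≠ p) (hp : p ∉ F)
    (hq : q ∉ F) (e1 : s(u, p) ∈ E) (e2 : s(p, q) ∈ E) (e3 : s(v, q) ∈ E) :
    ∃ W, W ⊆ E ∧ Piece {u, v} W ∧ ∀ x ∈ vE W, x ∈ ({u, v} : Finset V) ∨ x ∉ F := by
  have hsub : ({s(u, p), s(p, q), s(v, q)} : Finset (Sym2 V)) ⊆ E := by
    intro e he
    simp only [Finset.mem_insert, Finset.mem_singleton] at he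
    rcases he with rfl | rfl | rfl <;> assumption
  refine ⟨{s(u, p), s(p, q), s(v, q)}, hsub, ⟨fun e he => hnl e (hsub he), ?_, ?_, ?_⟩, ?_⟩
  · intro h
    exact absurd h (Finset.insert_ne_empty _ _)
  · intro _
    rw [Finset.card_insert_of_notMem, Finset.card_insert_of_notMem, Finset.card_singleton]
    · simp only [Finset.mem_singleton, Sym2.eq_iff]
      tauto
    · simp only [Finset.mem_insert, Finset.mem_singleton, Sym2.eq_iff]
      tauto
  · intro x
    have h1 : NW.nbr ({s(u, p), s(p, q), s(v, q)} : Finset (Sym2 V)) x =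
        if x = u then {p} else if x = p then {u, q} else if x = q then {p, v} else
          if x = v then {q} else ∅ := by
      ext y
      rw [NW.mem_nbr]
      simp only [Finset.mem_insert, Finset.mem_singleton, Sym2.eq_iff]
      split_ifs with h1 h2 h3 h4
      · subst h1; simp; tauto
      · subst h2; simp; tauto
      · subst h3; simp; tauto
      · subst h4; simp; tauto
      · simp; tauto
    unfold NW.deg
    rw [h1]
    simp only [Finset.mem_insert, Finset.mem_singleton]
    split_ifs with h1 h2 h3 h4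
    · subst h1; simp
    · subst h2
      rw [Finset.card_pair (Ne.symm hqu)]
      constructor
      · intro h; exact absurd h (by decide)
      · intro h; rcases h with h | h
        · exact absurd h hpu
        · exact absurd h hpv
    · subst h3
      rw [Finset.card_pair hpv]
      constructor
      · intro h; exact absurd h (by decide)
      · intro h; rcases h with h | h
        · exact absurd h hqu
        · exact absurd h hqv
    · subst h4; simp
    · simp [h1, h4]
  · intro x hx
    obtain ⟨e, he, hxe⟩ := (Finset.mem_filter.1 hx).2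
    simp only [Finset.mem_insert, Finset.mem_singleton] at he ⊢
    rcases he with rfl | rfl | rfl <;> rcases Sym2.mem_iff.1 hxe with rfl | rfl <;> simp [hp, hq]

theorem pc_cyc {E : Finset (Sym2 V)} {F : Finset V} {a b c d : V} (hnl : NW.NL E) (hba : b ≠ a)
    (hca : c ≠ a) (hcb : c ≠ b) (hda : d ≠ a) (hdb : d ≠ b) (hdc : d ≠ c) (ha : a ∉ F)
    (hb : b ∉ F) (hc : c ∉ F) (hd : d ∉ F) (e1 : s(a, b) ∈ E) (e2 : s(b, c) ∈ E)
    (e3 : s(c, d) ∈ E) (e4 : s(a, d) ∈ E) :
    ∃ W, W ⊆ E ∧ Piece ∅ W ∧ ∀ x ∈ vE W, x ∈ (∅ : Finset V) ∨ x ∉ F := by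
  have hsub : ({s(a, b), s(b, c), s(c, d), s(a, d)} : Finset (Sym2 V)) ⊆ E := by
    intro e he
    simp only [Finset.mem_insert, Finset.mem_singleton] at he
    rcases he with rfl | rfl | rfl | rfl <;> assumption
  refine ⟨{s(a, b), s(b, c), s(c, d), s(a, d)}, hsub, ⟨fun e he => hnl e (hsub he), ?_, ?_, ?_⟩, ?_⟩
  · intro _
    rw [Finset.card_insert_of_notMem, Finset.card_insert_of_notMem,
      Finset.card_insert_of_notMem, Finset.card_singleton]
    · simp only [Finset.mem_singleton, Sym2.eq_iff]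
      tauto
    · simp only [Finset.mem_insert, Finset.mem_singleton, Sym2.eq_iff]
      tauto
    · simp only [Finset.mem_insert, Finset.mem_singleton, Sym2.eq_iff]
      tauto
  · intro h
    exact absurd rfl h
  · intro x
    have h1 : NW.nbr ({s(a, b), s(b, c), s(c, d), s(a, d)} : Finset (Sym2 V)) x =
        if x = a then {b, d} else if x = b then {a, c} else if x = c then {b, d} else
          if x = d then {a, c} else ∅ := by
      ext y
      rw [NW.mem_nbr]
      simp only [Finset.mem_insert, Finset.mem_singleton, Sym2.eq_iff]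
      split_ifs with h1 h2 h3 h4
      · subst h1; simp; tauto
      · subst h2; simp; tauto
      · subst h3; simp; tauto
      · subst h4; simp; tauto
      · simp; tauto
    unfold NW.deg
    rw [h1]
    simp only [Finset.notMem_empty, iff_false, Nat.not_odd_iff_even]
    split_ifs with h1 h2 h3 h4
    · rw [Finset.card_pair (Ne.symm hdb)]; decide
    · rw [Finset.card_pair (Ne.symm hca)]; decide
    · rw [Finset.card_pair (Ne.symm hdb)]; decide
    · rw [Finset.card_pair (Ne.symm hca)]; decide
    · simp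
  · intro x hx
    obtain ⟨e, he, hxe⟩ := (Finset.mem_filter.1 hx).2
    simp only [Finset.mem_insert, Finset.mem_singleton] at he
    right
    rcases he with rfl | rfl | rfl | rfl <;> rcases Sym2.mem_iff.1 hxe with rfl | rfl <;>
      assumption

end

theorem piece : PieceStatement := by
  intro V _ _ E g F hnl hg h8
  rcases hg with rfl | hg
  · obtain ⟨a, -, haF, -⟩ := pc_pick (h8 ∅ (by simp)) ∅ (by simp)
    obtain ⟨b, hbT, hbF, hbE⟩ := pc_pick (h8 {a} (by simp)) {a} (by simp)
    obtain ⟨c, hcT, hcF, hcE⟩ := pc_pick (h8 {b} (by simp)) {a, b}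
      (le_trans Finset.card_le_two (by norm_num))
    obtain ⟨d, hdT, hdF, hdE⟩ := pc_pick
      (h8 {a, c} (le_trans Finset.card_le_two (by norm_num))) {a, b, c}
      (le_trans Finset.card_le_three (by norm_num))
    simp only [Finset.mem_insert, Finset.mem_singleton, not_or] at hbT hcT hdT
    exact pc_cyc hnl hbT hcT.1 hcT.2 hdT.1 hdT.2.1 hdT.2.2 haF hbF hcF hdF
      (hbE a (by simp)) (hcE b (by simp)) (hdE c (by simp)) (hdE a (by simp))
  · obtain ⟨u, v, huv, rfl⟩ := Finset.card_eq_two.1 hg
    obtain ⟨p, hpT, hpF, hpE⟩ := pc_pick (h8 {u} (by simp)) {u, v}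
      (le_trans Finset.card_le_two (by norm_num))
    obtain ⟨q, hqT, hqF, hqE⟩ := pc_pick
      (h8 {p, v} (le_trans Finset.card_le_two (by norm_num))) {u, v, p}
      (le_trans Finset.card_le_three (by norm_num))
    simp only [Finset.mem_insert, Finset.mem_singleton, not_or] at hpT hqT
    exact pc_path hnl huv hpT.1 hpT.2 hqT.1 hqT.2.1 hqT.2.2 hpF hqF (hpE u (by simp))
      (hqE p (by simp)) (hqE v (by simp))

end F2.O
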