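import Pool.Agent.F2.O.StateAux

/-!
# Project F2, block O, row G3 (helper89): the states
-/

set_option autoImplicit false
set_option linter.unusedSectionVars false

namespace F2.O

open Finset NW F1

theorem state : StateStatement := by
  intro V _ _ X ℒ 𝒞 can c s hc W hW hd hX L hL hdiv
  classical
  have hinj : ∀ e e', can e = can e' → e = e' := fun e e' h => by
    rw [← hc.can_snd e, ← hc.can_snd e', h]
  have hxe : ∀ k, xe X k ∈ X := fun k => (X.equivFin.symm k).2
  obtain ⟨hdeg, hcard⟩ := (g3_divis univ hW hd hX hc.nl hL).1 hdiv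
  -- the reserve edges
  have hLdeg : ∀ v, (NW.deg L v : ZMod 2) = 0 := by
    intro v
    have h1 := hdeg v
    rw [Fintype.sum_sum_type] at h1
    have h2 : ∑ x : {x : Lab V × Finset (Lab V) // x.2 ∈ 𝒞 ∧ x.1 ∈ x.2},
        (if v ∈ gvC X 𝒞 (Sum.inl x) then (1 : ZMod 2) else 0) = 0 := by
      rw [sum_congr rfl fun x _ => g3_gv v x,
        g3_sum_paths (fun f _ => if v ∈ f.2 then (1 : ZMod 2) else 0)]
      refine sum_eq_zero fun C hC => ?_
      rw [g3_cast_filter]
      exact ZMod.natCast_eq_zero_iff_even.2 (hc.even C hC v)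
    have h3 : ∑ y : Fin X.card × Bool,
        (if v ∈ gvC X 𝒞 (Sum.inr y) then (1 : ZMod 2) else 0) = 0 :=
      sum_eq_zero fun y _ => g3_gv' v y
    rw [h2, h3, zero_add, zero_add] at h1
    exact h1
  have hLcard : (X.card : ZMod 3) * 2 + (L.card : ZMod 3) = 0 := by
    have h1 := hcard
    rw [Fintype.sum_sum_type] at h1
    have h2 : ∑ x : {x : Lab V × Finset (Lab V) // x.2 ∈ 𝒞 ∧ x.1 ∈ x.2},
        ((W (Sum.inl x)).card : ZMod 3) = 0 :=
      sum_eq_zero fun x _ => g3_card_inl x (hW _)
    have h3 : ∑ y : Fin X.card × Bool, ((W (Sum.inr y)).card : ZMod 3) = (X.card : ZMod 3) * 2 := by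
      rw [sum_congr rfl fun y _ => g3_card_inr y (hW _), sum_const, card_univ,
        Fintype.card_prod, Fintype.card_fin, Fintype.card_bool, nsmul_eq_mul]
      push_cast
      ring
    rw [h2, h3, zero_add] at h1
    exact h1
  -- the labels
  have hl1 : L.image can ⊆ ℒ := by
    intro f hf
    obtain ⟨e, he, rfl⟩ := mem_image.1 hf
    exact hc.can_mem e (hL he)
  have hl2 : ∀ v, Even ((L.image can).filter (fun f => v ∈ f.2)).card := by
    intro v
    have h1 : (L.image can).filter (fun f => v ∈ f.2) = (L.filter fun e => v ∈ e).image can := by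
      ext f
      rw [mem_filter, mem_image, mem_image]
      constructor
      · rintro ⟨⟨e, he, rfl⟩, h2⟩
        rw [hc.can_snd] at h2
        exact ⟨e, mem_filter.2 ⟨he, h2⟩, rfl⟩
      · rintro ⟨e, he, rfl⟩
        rw [mem_filter] at he
        refine ⟨⟨e, he.1, rfl⟩, ?_⟩
        rw [hc.can_snd]
        exact he.2
    rw [h1, card_image_of_injective _ (fun e e' h => hinj e e' h), Ab.card_inc]
    exact ZMod.natCast_eq_zero_iff_even.1 (hLdeg v)
  obtain ⟨S, hS, hlS⟩ := hc.span _ hl1 hl2
  have hl3 : ∀ f : Lab V, f ∈ L.image can ↔ f.2 ∈ L ∧ can f.2 = f := by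
    intro f
    rw [mem_image]
    constructor
    · rintro ⟨e, he, rfl⟩
      rw [hc.can_snd]
      exact ⟨he, rfl⟩
    · rintro ⟨h1, h2⟩
      exact ⟨f.2, h1, h2⟩
  -- the distribution of the cycles
  set cc : ℕ → ZMod 3 := g3cc (fun k : Fin X.card => (if xe X k ∈ L then (1 : ZMod 3) else 0) + 2)
    with hccdef
  have hcM : cc X.card = 0 := by
    rw [hccdef, g3cc_top, sum_add_distrib]
    have h1 : ∑ k : Fin X.card, (if xe X k ∈ L then (1 : ZMod 3) else 0) = (L.card : ZMod 3) := by
      have h2 : ∑ k : Fin X.card, (if xe X k ∈ L then (1 : ZMod 3) else 0) =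
          ∑ e : {e // e ∈ X}, (if (e : Sym2 V) ∈ L then (1 : ZMod 3) else 0) :=
        Equiv.sum_comp X.equivFin.symm (fun e : {e // e ∈ X} =>
          if (e : Sym2 V) ∈ L then (1 : ZMod 3) else 0)
      rw [h2, Finset.sum_coe_sort X (fun e => if e ∈ L then (1 : ZMod 3) else 0),
        ← Finset.sum_filter, Finset.filter_mem_eq_inter, Finset.inter_eq_right.2 hL, sum_const,
        nsmul_eq_mul, mul_one]
    rw [h1, sum_const, card_univ, Fintype.card_fin, nsmul_eq_mul, add_comm]
    exact hLcard
  have hc0 : cc 0 = 0 := g3cc_zero _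
  have hcs : ∀ m : Fin X.card, cc (m.1 + 1) = cc m.1 +
      ((if xe X m ∈ L then (1 : ZMod 3) else 0) + 2) := fun m => g3cc_succ _ m
  let loc : PcT X 𝒞 → StT ℒ 𝒞 := fun p => Sum.elim
    (fun x => if x.1.2 ∈ S then Sum.inl ⟨x.1.1, hc.sub _ x.2.1 x.2.2⟩
      else Sum.inr ⟨x.1.2, x.2.1⟩)
    (fun y => Sum.inl ⟨can (xe X (g3tau cc y)), hc.can_mem _ (hxe _)⟩) p
  have hloc1 : ∀ x, loc (Sum.inl x) = if x.1.2 ∈ S then Sum.inl ⟨x.1.1, hc.sub _ x.2.1 x.2.2⟩
      else Sum.inr ⟨x.1.2, x.2.1⟩ := fun x => rfl
  have hloc2 : ∀ y, loc (Sum.inr y) =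
      Sum.inl ⟨can (xe X (g3tau cc y)), hc.can_mem _ (hxe _)⟩ := fun y => rfl
  clear_value loc
  refine ⟨loc, ?_, ?_⟩
  · rintro (x | y)
    · rw [hloc1]
      split_ifs with h
      · exact rfl
      · exact rfl
    · rw [hloc2]
      show can (xe X (g3tau cc y)) = can (xe X y.1) ∨
        ∃ k : Fin X.card, k.1 = y.1.1 + 1 ∧ can (xe X (g3tau cc y)) = can (xe X k)
      unfold g3tau
      split_ifs with h
      · exact Or.inr ⟨_, rfl, rfl⟩
      · exact Or.inl rfl
  · rintro (f | C)
    · -- the site of a label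
      have hL2 : L ∩ xsC X ℒ 𝒞 can (Sum.inl f) = if f.1 ∈ L.image can then {f.1.2} else ∅ := by
        show L ∩ (if f.1.2 ∈ X ∧ can f.1.2 = f.1 then {f.1.2} else ∅) = _
        by_cases h1 : f.1 ∈ L.image can
        · have h2 := (hl3 f.1).1 h1
          rw [if_pos h1, if_pos ⟨hL h2.1, h2.2⟩]
          ext e
          rw [mem_inter, mem_singleton]
          exact ⟨fun h => h.2, fun h => ⟨by rw [h]; exact h2.1, h⟩⟩
        · rw [if_neg h1]
          split_ifs with h2
          · ext e
            rw [mem_inter, mem_singleton]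
            refine ⟨fun h => ?_, fun h => absurd h (Finset.notMem_empty e)⟩
            exfalso
            apply h1
            rw [hl3]
            exact ⟨by rw [← h.2]; exact h.1, h2.2⟩
          · rw [inter_empty]
      have hx1 : ∀ x, loc (Sum.inl x) = Sum.inl f ↔ x.1.2 ∈ S ∧ x.1.1 = f.1 := by
        intro x
        rw [hloc1]
        by_cases h1 : x.1.2 ∈ S
        · rw [if_pos h1, Sum.inl.injEq, Subtype.ext_iff]
          exact ⟨fun h => ⟨h1, h⟩, fun h => h.2⟩
        · rw [if_neg h1]
          exact ⟨fun h => absurd h Sum.inr_ne_inl, fun h => absurd h.1 h1⟩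
      rw [g3_divis _ hW hd hX hc.nl (inter_subset_left.trans hL), hL2]
      refine ⟨fun v => ?_, ?_⟩
      · rw [sum_filter, Fintype.sum_sum_type]
        have h1 : ∑ y : Fin X.card × Bool, (if loc (Sum.inr y) = Sum.inl f then
            (if v ∈ gvC X 𝒞 (Sum.inr y) then (1 : ZMod 2) else 0) else 0) = 0 := by
          refine sum_eq_zero fun y _ => ?_
          rw [g3_gv']
          split_ifs <;> rfl
        have h2 : ∑ x : {x : Lab V × Finset (Lab V) // x.2 ∈ 𝒞 ∧ x.1 ∈ x.2},
            (if loc (Sum.inl x) = Sum.inl f then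
              (if v ∈ gvC X 𝒞 (Sum.inl x) then (1 : ZMod 2) else 0) else 0) =
            (((S.filter (fun C => f.1 ∈ C)).card : ℕ) : ZMod 2) *
              (if v ∈ f.1.2 then 1 else 0) := by
          have h3 : ∀ x : {x : Lab V × Finset (Lab V) // x.2 ∈ 𝒞 ∧ x.1 ∈ x.2},
              (if loc (Sum.inl x) = Sum.inl f then
                (if v ∈ gvC X 𝒞 (Sum.inl x) then (1 : ZMod 2) else 0) else 0) =
              if x.1.2 ∈ S ∧ x.1.1 = f.1 then (if v ∈ f.1.2 then (1 : ZMod 2) else 0) else 0 := by
            intro x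
            rw [g3_gv]
            by_cases h4 : x.1.2 ∈ S ∧ x.1.1 = f.1
            · rw [if_pos h4, if_pos ((hx1 x).2 h4), h4.2]
            · rw [if_neg h4, if_neg (fun h => h4 ((hx1 x).1 h))]
          rw [sum_congr rfl fun x _ => h3 x, g3_sum_paths (fun f' C' =>
            if C' ∈ S ∧ f' = f.1 then (if v ∈ f.1.2 then (1 : ZMod 2) else 0) else 0)]
          have h5 : ∀ C' ∈ 𝒞, ∑ f' ∈ C', (if C' ∈ S ∧ f' = f.1 then
              (if v ∈ f.1.2 then (1 : ZMod 2) else 0) else 0) =
              if C' ∈ S ∧ f.1 ∈ C' then (if v ∈ f.1.2 then (1 : ZMod 2) else 0) else 0 := by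
            intro C' _
            by_cases h6 : C' ∈ S
            · simp only [h6, true_and]
              rw [Finset.sum_ite_eq' C' f.1 (fun _ => if v ∈ f.1.2 then (1 : ZMod 2) else 0)]
            · simp only [h6, false_and, if_false, sum_const_zero]
          rw [sum_congr rfl h5, ← sum_filter, sum_const, nsmul_eq_mul]
          congr 3
          ext C'
          rw [mem_filter, mem_filter]
          exact ⟨fun h => h.2, fun h => ⟨hS h.1, h⟩⟩
        have h3 : (NW.deg (if f.1 ∈ L.image can then {f.1.2} else ∅) v : ZMod 2) =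
            (if f.1 ∈ L.image can then 1 else 0) * (if v ∈ f.1.2 then 1 else 0) := by
          rw [← Ab.card_inc]
          by_cases h4 : f.1 ∈ L.image can
          · rw [if_pos h4, if_pos h4, filter_singleton]
            split_ifs <;> simp
          · rw [if_neg h4, if_neg h4]
            simp
        rw [h1, h2, h3, add_zero, ← add_mul]
        have h4 : (((S.filter (fun C => f.1 ∈ C)).card : ℕ) : ZMod 2) +
            (if f.1 ∈ L.image can then 1 else 0) = 0 := by
          by_cases h5 : f.1 ∈ L.image can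
          · rw [if_pos h5, ZMod.natCast_eq_one_iff_odd.2 ((hlS f.1).1 h5)]
            decide
          · rw [if_neg h5, add_zero]
            refine ZMod.natCast_eq_zero_iff_even.2 ?_
            rw [← Nat.not_odd_iff_even]
            exact fun h => h5 ((hlS f.1).2 h)
        rw [h4, zero_mul]
      · rw [sum_filter, Fintype.sum_sum_type]
        have h1 : ∑ x : {x : Lab V × Finset (Lab V) // x.2 ∈ 𝒞 ∧ x.1 ∈ x.2},
            (if loc (Sum.inl x) = Sum.inl f then ((W (Sum.inl x)).card : ZMod 3) else 0) = 0 := by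
          refine sum_eq_zero fun x _ => ?_
          rw [g3_card_inl x (hW _)]
          split_ifs <;> rfl
        rw [h1, zero_add]
        have h2 : ∀ y : Fin X.card × Bool, (if loc (Sum.inr y) = Sum.inl f then
            ((W (Sum.inr y)).card : ZMod 3) else 0) =
            if can (xe X (g3tau cc y)) = f.1 then 1 else 0 := by
          intro y
          rw [g3_card_inr y (hW _), hloc2]
          exact if_congr (by rw [Sum.inl.injEq, Subtype.ext_iff]) rfl rfl
        rw [sum_congr rfl fun y _ => h2 y]
        by_cases h3 : ∃ m, can (xe X m) = f.1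
        · obtain ⟨m, hm⟩ := h3
          have h4 : ∀ y : Fin X.card × Bool,
              (if can (xe X (g3tau cc y)) = f.1 then (1 : ZMod 3) else 0) =
              if g3tau cc y = m then 1 else 0 := by
            intro y
            have h5 : can (xe X (g3tau cc y)) = f.1 ↔ g3tau cc y = m := by
              rw [← hm]
              constructor
              · intro h
                have h6 := hinj _ _ h
                exact X.equivFin.symm.injective (Subtype.ext h6)
              · intro h
                rw [h]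
            exact if_congr h5 rfl rfl
          rw [sum_congr rfl fun y _ => h4 y, g3tau_sum cc hc0 hcM m, hcs m]
          have h5 : f.1.2 = xe X m := by rw [← hm, hc.can_snd]
          have h6 : f.1 ∈ L.image can ↔ xe X m ∈ L := by
            rw [hl3, h5]
            exact ⟨fun h => h.1, fun h => ⟨h, hm⟩⟩
          by_cases h7 : xe X m ∈ L
          · rw [if_pos h7, if_pos (h6.2 h7), card_singleton]
            push_cast
            ring
          · rw [if_neg h7, if_neg (fun h => h7 (h6.1 h)), card_empty]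
            push_cast
            ring
        · have h4 : ∑ y : Fin X.card × Bool,
              (if can (xe X (g3tau cc y)) = f.1 then (1 : ZMod 3) else 0) = 0 := by
            refine sum_eq_zero fun y _ => ?_
            rw [if_neg (fun h => h3 ⟨_, h⟩)]
          have h5 : f.1 ∉ L.image can := by
            intro h
            have h6 := (hl3 f.1).1 h
            apply h3
            refine ⟨X.equivFin ⟨f.1.2, hL h6.1⟩, ?_⟩
            unfold xe
            rw [Equiv.symm_apply_apply]
            exact h6.2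
          rw [h4, if_neg h5, card_empty, Nat.cast_zero, add_zero]
    · -- the site of a cell
      have hL2 : L ∩ xsC X ℒ 𝒞 can (Sum.inr C) = ∅ := inter_empty L
      have hx1 : ∀ x, loc (Sum.inl x) = Sum.inr C ↔ x.1.2 ∉ S ∧ x.1.2 = C.1 := by
        intro x
        rw [hloc1]
        by_cases h1 : x.1.2 ∈ S
        · rw [if_pos h1]
          exact ⟨fun h => absurd h Sum.inl_ne_inr, fun h => absurd h1 h.1⟩
        · rw [if_neg h1, Sum.inr.injEq, Subtype.ext_iff]
          exact ⟨fun h => ⟨h1, h⟩, fun h => h.2⟩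
      rw [g3_divis _ hW hd hX hc.nl (inter_subset_left.trans hL), hL2]
      refine ⟨fun v => ?_, ?_⟩
      · rw [sum_filter, Fintype.sum_sum_type]
        have h1 : ∑ y : Fin X.card × Bool, (if loc (Sum.inr y) = Sum.inr C then
            (if v ∈ gvC X 𝒞 (Sum.inr y) then (1 : ZMod 2) else 0) else 0) = 0 := by
          refine sum_eq_zero fun y _ => ?_
          rw [g3_gv']
          split_ifs <;> rfl
        have h2 : ∑ x : {x : Lab V × Finset (Lab V) // x.2 ∈ 𝒞 ∧ x.1 ∈ x.2},
            (if loc (Sum.inl x) = Sum.inr C then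
              (if v ∈ gvC X 𝒞 (Sum.inl x) then (1 : ZMod 2) else 0) else 0) = 0 := by
          have h3 : ∀ x : {x : Lab V × Finset (Lab V) // x.2 ∈ 𝒞 ∧ x.1 ∈ x.2},
              (if loc (Sum.inl x) = Sum.inr C then
                (if v ∈ gvC X 𝒞 (Sum.inl x) then (1 : ZMod 2) else 0) else 0) =
              if x.1.2 ∉ S ∧ x.1.2 = C.1 then (if v ∈ x.1.1.2 then (1 : ZMod 2) else 0)
                else 0 := by
            intro x
            rw [g3_gv]
            exact if_congr (hx1 x) rfl rfl
          rw [sum_congr rfl fun x _ => h3 x, g3_sum_paths (fun f' C' =>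
            if C' ∉ S ∧ C' = C.1 then (if v ∈ f'.2 then (1 : ZMod 2) else 0) else 0)]
          refine sum_eq_zero fun C' hC' => ?_
          by_cases h4 : C' ∉ S ∧ C' = C.1
          · rw [sum_congr rfl fun f' _ => if_pos h4, g3_cast_filter]
            exact ZMod.natCast_eq_zero_iff_even.2 (hc.even C' hC' v)
          · refine sum_eq_zero fun f' _ => ?_
            rw [if_neg h4]
        rw [h1, h2, ← Ab.card_inc]
        simp
      · rw [sum_filter, Fintype.sum_sum_type]
        have h1 : ∑ x : {x : Lab V × Finset (Lab V) // x.2 ∈ 𝒞 ∧ x.1 ∈ x.2},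
            (if loc (Sum.inl x) = Sum.inr C then ((W (Sum.inl x)).card : ZMod 3) else 0) = 0 := by
          refine sum_eq_zero fun x _ => ?_
          rw [g3_card_inl x (hW _)]
          split_ifs <;> rfl
        have h2 : ∑ y : Fin X.card × Bool, (if loc (Sum.inr y) = Sum.inr C then
            ((W (Sum.inr y)).card : ZMod 3) else 0) = 0 := by
          refine sum_eq_zero fun y _ => ?_
          rw [hloc2, if_neg Sum.inl_ne_inr]
        rw [h1, h2, card_empty, Nat.cast_zero, add_zero, add_zero]

end F2.O
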