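import Pool.Agent.F2.O.Main
import Pool.Agent.F2.O.Greedy
import Pool.Agent.F2.O.Host
import Pool.Agent.F2.O.Piece
import Pool.Agent.F2.O.State

/-!
# Project F2, block O: the omni-absorber exists
-/

set_option autoImplicit false

namespace F2

/-- the omni-absorber exists -/
theorem omni : OmniStatement := O.omni_of' O.greedy O.host O.piece O.state

end F2
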