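import Pool.Agent.F2.O.Spec
import Pool.Agent.NW.Absorber
import Pool.Agent.NW.Transfer

/-!
# Project F2, block O, row D: absorbers which avoid a set of vertices
-/

set_option autoImplicit false
set_option linter.unusedSectionVars false

namespace F2.O

open Finset NW F1

section

variable {V : Type} [Fintype V] [DecidableEq V]

theorem od_cnbr {E : Finset (Sym2 V)} {U F : Finset V} {C : ℕ}
    (h : ∀ S : Finset V, S.card ≤ 4 → C ≤ (cnbr E S (F ∪ U)).card)
    (S : Finset {x // x ∈ univ \ (F \ U)}) (hS : S.card ≤ 4) :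
    C ≤ (cnbr (res (univ \ (F \ U)) E) S (U.subtype (fun v => v ∈ univ \ (F \ U)))).card := by
  have h1 := h (S.map (Function.Embedding.subtype _)) (by rwa [Finset.card_map])
  refine h1.trans ?_
  rw [← Finset.card_map (Function.Embedding.subtype _)
    (s := cnbr (res (univ \ (F \ U)) E) S (U.subtype (fun v => v ∈ univ \ (F \ U))))]
  refine Finset.card_le_card fun z hz => ?_
  unfold cnbr at hz
  rw [Finset.mem_filter] at hz
  obtain ⟨_, hz1, hz2⟩ := hz
  rw [Finset.mem_union, not_or] at hz1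
  have hzT : z ∈ univ \ (F \ U) := by
    rw [Finset.mem_sdiff]
    exact ⟨Finset.mem_univ _, fun h3 => hz1.1 (Finset.mem_sdiff.1 h3).1⟩
  rw [Finset.mem_map]
  refine ⟨⟨z, hzT⟩, ?_, rfl⟩
  unfold cnbr
  rw [Finset.mem_filter]
  refine ⟨Finset.mem_univ _, fun h3 => hz1.2 (Finset.mem_subtype.1 h3), fun x hx => ?_⟩
  rw [mk_mem_res]
  exact hz2 _ (Finset.mem_map.2 ⟨x, hx, rfl⟩)

theorem od_sub_edg {U T : Finset V} (hUT : U ⊆ T) {D : Finset (Sym2 V)} (hD : D ⊆ U.sym2)
    (hN : NL D) : D ⊆ edg T := by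
  intro e he
  rw [mem_edg]
  refine ⟨fun v hv => hUT ?_, hN e he⟩
  exact Finset.mem_sym2_iff.1 (hD he) v hv

theorem od_divis {T : Finset V} {D : Finset (Sym2 V)} (hD : D ⊆ edg T) (h : Divis D) :
    Divis (res T D) := by
  refine ⟨nl_res h.1, fun x => ?_, ?_⟩
  · rw [deg_res hD]
    exact h.2.1 _
  · have h1 : (img Subtype.val (res T D)).card = (res T D).card := by
      unfold img
      exact Finset.card_image_of_injective _ (Sym2.map.injective Subtype.val_injective)
    rw [img_res hD] at h1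
    rw [← h1]
    exact h.2.2

theorem od_res_sym2 {U T : Finset V} {D : Finset (Sym2 V)} (hD : D ⊆ U.sym2) :
    res T D ⊆ (U.subtype (fun v => v ∈ T)).sym2 := by
  intro e he
  rw [res, Finset.mem_filter] at he
  rw [Finset.mem_sym2_iff]
  intro v hv
  rw [Finset.mem_subtype]
  exact Finset.mem_sym2_iff.1 (hD he.2) _ (Sym2.mem_map.2 ⟨v, hv, rfl⟩)

end

/-- O-D -/
theorem abs : AbsStatement := by
  intro m
  obtain ⟨C, hC⟩ := absorber m
  refine ⟨C, fun V _ _ E U F hNL hU hcn => ?_⟩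
  have hUT : U ⊆ univ \ (F \ U) := by
    intro x hx
    rw [Finset.mem_sdiff]
    exact ⟨Finset.mem_univ _, fun h => (Finset.mem_sdiff.1 h).2 hx⟩
  obtain ⟨A, hA1, hA2, hA3, hA4, hA5⟩ := hC {x // x ∈ univ \ (F \ U)}
    (res (univ \ (F \ U)) E) (U.subtype (fun v => v ∈ univ \ (F \ U)))
    (U.subtype (fun v => v ∈ univ \ (F \ U))) (nl_res hNL)
    ((by rw [Finset.card_subtype]; exact (Finset.card_filter_le _ _).trans hU))
    (Finset.Subset.refl _) (od_cnbr hcn)
  refine ⟨img Subtype.val A, img_val_subset_of_subset_res hA1, ?_, ?_, ?_, ?_, ?_⟩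
  · exact Finset.card_image_le.trans hA3
  · intro v hv
    unfold vE at hv
    rw [Finset.mem_filter] at hv
    obtain ⟨_, e, he, hve⟩ := hv
    unfold img at he
    obtain ⟨e', _, rfl⟩ := Finset.mem_image.1 he
    obtain ⟨w, _, rfl⟩ := Sym2.mem_map.1 hve
    by_contra hcon
    rw [not_or, not_not] at hcon
    exact (Finset.mem_sdiff.1 w.2).2 (Finset.mem_sdiff.2 ⟨hcon.2, hcon.1⟩)
  · exact Dec.img Subtype.val_injective hA2
  · intro e he
    unfold img at he
    obtain ⟨e', he', rfl⟩ := Finset.mem_image.1 he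
    obtain ⟨w, hw1, hw2⟩ := hA4 e' he'
    exact ⟨w, Sym2.mem_map.2 ⟨w, hw1, rfl⟩, fun h => hw2 (Finset.mem_subtype.2 h)⟩
  · intro D hD1 hD2
    have hDT := od_sub_edg hUT hD1 hD2.1
    have h1 := hA5 (res (univ \ (F \ U)) D) (od_res_sym2 hD1) (od_divis hDT hD2)
    have h2 := Dec.img Subtype.val_injective h1
    rwa [img_union, img_res hDT] at h2

end F2.O
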