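import Pool.Agent.F2.O.Base

/-!
# Project F2, block O: the assembly of the omni-absorber
-/

set_option autoImplicit false
set_option linter.unusedSectionVars false

namespace F2.O

open Finset NW F1

theorem xs_sub {V : Type} [Fintype V] [DecidableEq V] (ro co : V → ℕ) (E : Finset (Sym2 V)) :
    Xs ro co E ⊆ E := filter_subset _ _

theorem omni_of (hE : EmbStatement) (hF : FinStatement) (hC : CellStatement)
    (hS : SkelStatement) (hT : StateStatement) (hH : HostStatement) : OmniStatement := by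
  intro ε hε
  obtain ⟨C, hC1⟩ := hS 32
  obtain ⟨c, s₁, h1⟩ := hE ε C hε
  obtain ⟨C', h2⟩ := hF C c
  obtain ⟨s₂, hs2, h3⟩ := hH ε 0 hε
  refine ⟨max (c + 1) C', max s₁ s₂, ?_⟩
  intro V _ _ E s ro co hNL hG hs hCs hdeg
  have hs1 : s₁ ≤ s := (le_max_left _ _).trans hs
  have hs3 : s₂ ≤ s := (le_max_right _ _).trans hs
  have hs0 : 1 ≤ s := hs2.trans hs3
  have hm1 : c + 1 ≤ max (c + 1) C' := le_max_left _ _
  have hm2 : C' ≤ max (c + 1) C' := le_max_right _ _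
  have hcs : (c + 1) * s ≤ Fintype.card V := (Nat.mul_le_mul_right _ hm1).trans hCs
  have hn : 1 ≤ Fintype.card V := by nlinarith
  obtain ⟨𝒞, can, hcell⟩ := hC V E s ro co hNL hG hs0 hn
  obtain ⟨S⟩ := hC1 V _ _ 𝒞 can s hcell (hT V _ _ 𝒞 can 32 s hcell)
  obtain ⟨W, A, U, hEmb⟩ := h1 V E s ro co _ _ S hNL hG hs1
    (le_trans (Nat.mul_le_mul_right _ (Nat.le_succ c)) hcs) hdeg
  obtain ⟨hX, -⟩ := h3 V E s ro co hNL hG hs3 hdeg
  obtain ⟨B, RT, b1, b2, b3, b4, b5, b6⟩ := h2 V _ _ s _ _ S W A U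
    (hNL.mono sdiff_subset) (hNL.mono (xs_sub ro co E)) sdiff_disjoint hX hEmb
  refine ⟨B, RT, b1, b2, fun v => ?_, fun v => ?_, fun e => (b5 e).trans hm2, b6⟩
  · exact (b3 v).trans (Nat.mul_le_mul_right _ hm2)
  · exact (b4 v).trans (Nat.mul_le_mul_right _ hm2)

end F2.O
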