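import Pool.Agent.F2.O.Spec

/-!
# Project F2, block O: basic lemmas on degrees and vertices of edge sets
-/

set_option autoImplicit false
set_option linter.unusedSectionVars false

namespace F2.O

open Finset NW F1

variable {V : Type} [Fintype V] [DecidableEq V]

theorem mem_vE {A : Finset (Sym2 V)} {v : V} : v ∈ vE A ↔ ∃ e ∈ A, v ∈ e := by simp [vE]

theorem vE_mono {A B : Finset (Sym2 V)} (h : A ⊆ B) : vE A ⊆ vE B := by
  intro v hv
  obtain ⟨e, he, h1⟩ := mem_vE.1 hv
  exact mem_vE.2 ⟨e, h he, h1⟩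

theorem vE_empty : vE (∅ : Finset (Sym2 V)) = ∅ := by
  ext v
  simp [mem_vE]

theorem vE_union (A B : Finset (Sym2 V)) : vE (A ∪ B) = vE A ∪ vE B := by
  ext v
  simp only [mem_vE, mem_union]
  constructor
  · rintro ⟨e, he | he, h⟩
    · exact Or.inl ⟨e, he, h⟩
    · exact Or.inr ⟨e, he, h⟩
  · rintro (⟨e, he, h⟩ | ⟨e, he, h⟩)
    · exact ⟨e, Or.inl he, h⟩
    · exact ⟨e, Or.inr he, h⟩

theorem vE_biUnion {ι : Type*} (T : Finset ι) (A : ι → Finset (Sym2 V)) :
    vE (T.biUnion A) = T.biUnion (fun i => vE (A i)) := by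
  ext v
  simp only [mem_vE, mem_biUnion]
  constructor
  · rintro ⟨e, ⟨i, hi, he⟩, h⟩
    exact ⟨i, hi, e, he, h⟩
  · rintro ⟨i, hi, e, he, h⟩
    exact ⟨e, ⟨i, hi, he⟩, h⟩

theorem sub_sym2 (A : Finset (Sym2 V)) : A ⊆ (vE A).sym2 := by
  intro e he
  rw [mem_sym2_iff]
  exact fun v hv => mem_vE.2 ⟨e, he, hv⟩

theorem sub_sym2' {A : Finset (Sym2 V)} {U : Finset V} (h : vE A ⊆ U) : A ⊆ U.sym2 :=
  (sub_sym2 A).trans (sym2_mono h)

theorem vE_card (A : Finset (Sym2 V)) : (vE A).card ≤ 2 * A.card := by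
  induction A using Finset.induction_on with
  | empty => simp [vE_empty]
  | insert e A he ih =>
    rw [insert_eq, vE_union, card_union_of_disjoint (disjoint_singleton_left.2 he),
      card_singleton]
    have h1 := card_union_le (vE {e}) (vE A)
    have h2 : (vE ({e} : Finset (Sym2 V))).card ≤ 2 := by
      induction e using Sym2.ind with
      | _ x y =>
        have : vE ({s(x, y)} : Finset (Sym2 V)) ⊆ {x, y} := by
          intro v hv
          obtain ⟨e, he, h⟩ := mem_vE.1 hv
          rw [mem_singleton] at he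
          subst he
          simpa using h
        exact (card_le_card this).trans card_le_two
    omega

theorem deg_le_card (A : Finset (Sym2 V)) (v : V) : NW.deg A v ≤ A.card := by
  unfold NW.deg
  apply card_le_card_of_injOn (fun u => s(v, u))
  · intro u hu
    exact mem_nbr.1 hu
  · intro u _ u' _ h
    exact Sym2.congr_right.1 h

theorem mem_vE_iff {A : Finset (Sym2 V)} {v : V} : v ∈ vE A ↔ 1 ≤ NW.deg A v := by
  rw [mem_vE, NW.deg, Nat.succ_le_iff, card_pos]
  constructor
  · rintro ⟨e, he, hv⟩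
    obtain ⟨u, rfl⟩ := Sym2.mem_iff_exists.1 hv
    exact ⟨u, mem_nbr.2 he⟩
  · rintro ⟨u, hu⟩
    exact ⟨_, mem_nbr.1 hu, Sym2.mem_mk_left _ _⟩

theorem deg_eq_zero {A : Finset (Sym2 V)} {v : V} (h : v ∉ vE A) : NW.deg A v = 0 := by
  by_contra hcon
  exact h (mem_vE_iff.2 (Nat.one_le_iff_ne_zero.2 hcon))

@[simp] theorem deg_empty (v : V) : NW.deg (∅ : Finset (Sym2 V)) v = 0 := by
  apply deg_eq_zero
  rw [vE_empty]
  exact notMem_empty v

/-- the degree in a disjoint union -/
theorem deg_biUnion {ι : Type*} [DecidableEq ι] (T : Finset ι) (A : ι → Finset (Sym2 V))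
    (h : ∀ i ∈ T, ∀ j ∈ T, i ≠ j → Disjoint (A i) (A j)) (v : V) :
    NW.deg (T.biUnion A) v = ∑ i ∈ T, NW.deg (A i) v := by
  induction T using Finset.induction_on with
  | empty => simp
  | insert i T hi ih =>
    rw [biUnion_insert, deg_union, sum_insert hi, ih]
    · exact fun j hj k hk => h j (mem_insert_of_mem hj) k (mem_insert_of_mem hk)
    · rw [disjoint_biUnion_right]
      intro j hj
      refine h i (mem_insert_self _ _) j (mem_insert_of_mem hj) ?_
      rintro rfl
      exact hi hj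

theorem deg_biUnion_le {ι : Type*} [DecidableEq ι] (T : Finset ι) (A : ι → Finset (Sym2 V))
    (v : V) : NW.deg (T.biUnion A) v ≤ ∑ i ∈ T, NW.deg (A i) v := by
  induction T using Finset.induction_on with
  | empty => simp
  | insert i T hi ih =>
    rw [biUnion_insert, sum_insert hi]
    exact (deg_union_le _ _ _).trans (Nat.add_le_add_left ih _)

/-- many sets with at most `c` edges -/
theorem deg_biUnion_le' {ι : Type*} [DecidableEq ι] (T : Finset ι) (A : ι → Finset (Sym2 V))
    (v : V) (c : ℕ) (h : ∀ i ∈ T, (A i).card ≤ c) :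
    NW.deg (T.biUnion A) v ≤ c * (T.filter (fun i => v ∈ vE (A i))).card := by
  refine (deg_biUnion_le T A v).trans ?_
  rw [card_eq_sum_ones, mul_sum, sum_filter]
  refine sum_le_sum fun i hi => ?_
  split_ifs with h1
  · rw [mul_one]
    exact (deg_le_card _ _).trans (h i hi)
  · rw [deg_eq_zero h1]

/-- disjoint sets through a vertex -/
theorem count_le_deg {ι : Type*} [DecidableEq ι] (T : Finset ι) (A : ι → Finset (Sym2 V))
    (h : ∀ i ∈ T, ∀ j ∈ T, i ≠ j → Disjoint (A i) (A j)) (v : V) :
    (T.filter (fun i => v ∈ vE (A i))).card ≤ NW.deg (T.biUnion A) v := by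
  rw [deg_biUnion T A h, card_eq_sum_ones, sum_filter]
  refine sum_le_sum fun i _ => ?_
  split_ifs with h1
  · exact mem_vE_iff.1 h1
  · exact Nat.zero_le _

theorem divis_union {A B : Finset (Sym2 V)} (hA : Divis A) (hB : Divis B) (h : Disjoint A B) :
    Divis (A ∪ B) := by
  refine ⟨hA.1.union hB.1, fun v => ?_, ?_⟩
  · rw [deg_union h]
    exact (hA.2.1 v).add (hB.2.1 v)
  · rw [card_union_of_disjoint h]
    exact (hA.2.2).add hB.2.2

theorem divis_empty : Divis (∅ : Finset (Sym2 V)) := ⟨by intro e he; simp at he, by simp, by simp⟩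

theorem divis_of_union {A B : Finset (Sym2 V)} (hAB : Divis (A ∪ B)) (hB : Divis B)
    (h : Disjoint A B) : Divis A := by
  have h1 := hAB.sdiff hB subset_union_right
  rwa [union_sdiff_right, sdiff_eq_self_of_disjoint h] at h1

/-- the number of edges at a vertex -/
theorem card_inc (D : Finset (Sym2 V)) (x : V) :
    (D.filter fun d => x ∈ d).card = NW.deg D x := by
  unfold NW.deg
  symm
  apply card_bij (fun u _ => s(x, u))
  · intro u hu
    rw [mem_filter]
    exact ⟨mem_nbr.1 hu, Sym2.mem_mk_left _ _⟩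
  · intro u _ u' _ h
    exact Sym2.congr_right.1 h
  · intro e he
    rw [mem_filter] at he
    obtain ⟨u, rfl⟩ := Sym2.mem_iff_exists.1 he.2
    exact ⟨u, mem_nbr.2 he.1, rfl⟩

/-- the parity of the degrees of a disjoint union of pieces -/
theorem even_deg_iff {ι : Type*} [DecidableEq ι] (T : Finset ι) (g : ι → Finset V)
    (W : ι → Finset (Sym2 V)) (hW : ∀ i ∈ T, Piece (g i) (W i))
    (h : ∀ i ∈ T, ∀ j ∈ T, i ≠ j → Disjoint (W i) (W j)) (v : V) :
    Even (NW.deg (T.biUnion W) v) ↔ Even (T.filter (fun i => v ∈ g i)).card := by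
  rw [deg_biUnion T W h]
  induction T using Finset.induction_on with
  | empty => simp
  | insert i T hi ih =>
    have ih' := ih (fun j hj => hW j (mem_insert_of_mem hj))
      (fun j hj k hk => h j (mem_insert_of_mem hj) k (mem_insert_of_mem hk))
    rw [sum_insert hi, filter_insert]
    have h1 := (hW i (mem_insert_self _ _)).odd v
    split_ifs with h2
    · rw [card_insert_of_notMem (fun h3 => hi (mem_filter.1 h3).1)]
      rw [Nat.even_add, Nat.even_add_one, ih']
      have h3 := Nat.not_even_iff_odd.2 (h1.2 h2)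
      tauto
    · rw [Nat.even_add, ih']
      have h3 : Even (NW.deg (W i) v) := by
        by_contra h4
        exact h2 (h1.1 (Nat.not_even_iff_odd.1 h4))
      tauto

theorem Piece.ne {g : Finset V} {W : Finset (Sym2 V)} (h : Piece g W) : W.Nonempty := by
  rw [← card_pos]
  by_cases hg : g = ∅
  · rw [h.card4 hg]
    norm_num
  · rw [h.card3 hg]
    norm_num

theorem Piece.card_le {g : Finset V} {W : Finset (Sym2 V)} (h : Piece g W) : W.card ≤ 4 := by
  by_cases hg : g = ∅
  · rw [h.card4 hg]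
  · rw [h.card3 hg]
    norm_num

end F2.O
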