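import Pool.Agent.F2.O.Spec

/-!
# Project F2, block O, row G1: the grid cells form a system of cells
-/

set_option autoImplicit false
set_option linter.unusedSectionVars false

namespace F2.O

open Finset NW F1

section CG

variable {V : Type} [Fintype V] [DecidableEq V]

/-! ## Labels -/

theorem cg_lab_true {ro co : V → ℕ} {a b : V} (hne : a ≠ b) (h : ro a = ro b) :
    IsLab ro co (true, s(a, b)) := by
  refine ⟨by simpa using hne, ?_⟩
  intro u v huv
  simp only at huv
  rw [Sym2.eq_iff] at huv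
  simp only [if_true]
  rcases huv with ⟨rfl, rfl⟩ | ⟨rfl, rfl⟩
  · exact h
  · exact h.symm

theorem cg_lab_false {ro co : V → ℕ} {a b : V} (hne : a ≠ b) (h : co a = co b) :
    IsLab ro co (false, s(a, b)) := by
  refine ⟨by simpa using hne, ?_⟩
  intro u v huv
  simp only at huv
  rw [Sym2.eq_iff] at huv
  simp only [Bool.false_eq_true, if_false]
  rcases huv with ⟨rfl, rfl⟩ | ⟨rfl, rfl⟩
  · exact h
  · exact h.symm

theorem cg_mem_labs {ro co : V → ℕ} {f : Lab V} : f ∈ labs ro co ↔ IsLab ro co f := by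
  classical
  unfold labs
  simp

/-- the labels at a vertex -/
theorem cg_ldeg (ro co : V → ℕ) (v : V) :
    ((labs ro co).filter (fun f => v ∈ f.2)).card ≤
      (Rw ro (ro v)).card + (Rw co (co v)).card := by
  classical
  have hsub : (labs ro co).filter (fun f => v ∈ f.2) ⊆
      (Rw ro (ro v)).image (fun u => ((true, s(v, u)) : Lab V)) ∪
        (Rw co (co v)).image (fun u => ((false, s(v, u)) : Lab V)) := by
    rintro ⟨b, e⟩ hf
    rw [mem_filter, cg_mem_labs] at hf
    obtain ⟨⟨hd, hl⟩, hv⟩ := hf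
    simp only at hv
    obtain ⟨u, rfl⟩ := Sym2.mem_iff_exists.1 hv
    have h1 := hl v u rfl
    rw [mem_union]
    cases b with
    | true =>
      left
      simp only [if_true] at h1
      exact mem_image.2 ⟨u, by simp [Rw, h1], rfl⟩
    | false =>
      right
      simp only [Bool.false_eq_true, if_false] at h1
      exact mem_image.2 ⟨u, by simp [Rw, h1], rfl⟩
  calc ((labs ro co).filter (fun f => v ∈ f.2)).card ≤ _ := card_le_card hsub
    _ ≤ _ := card_union_le _ _
    _ ≤ _ := add_le_add card_image_le card_image_le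

/-! ## Parity -/

theorem cg_ind {a b v : V} (hab : a ≠ b) : (if v ∈ s(a, b) then (1 : ZMod 2) else 0) =
    (if v = a then 1 else 0) + (if v = b then 1 else 0) := by
  by_cases h1 : v = a
  · subst h1
    simp [hab]
  · by_cases h2 : v = b
    · subst h2
      simp [h1]
    · simp [h1, h2]

theorem cg_even (C : Finset (Lab V)) (v : V)
    (h : ∑ f ∈ C, (if v ∈ f.2 then (1 : ZMod 2) else 0) = 0) :
    Even (C.filter (fun f => v ∈ f.2)).card := by
  rw [← ZMod.natCast_eq_zero_iff_even, ← h, card_filter]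
  push_cast
  rfl

theorem cg_two (x : ZMod 2) : x + x = 0 := by
  revert x
  decide

/-! ## The cells -/

variable [Nonempty V]

/-- the four kinds of cells -/
theorem cg_cases {ro co : V → ℕ} {s : ℕ} {w : ℕ → ℕ → V} {C : Finset (Lab V)}
    (hC : C ∈ allCells ro co s w) :
    (∃ x i j, x < s ∧ i < j ∧ j + 1 < (Rw ro x).card ∧ C = rowCell true (en (Rw ro x)) i j) ∨
    (∃ x i j, x < s ∧ i < j ∧ j + 1 < (Rw co x).card ∧ C = rowCell false (en (Rw co x)) i j) ∨
    (∃ x y i, x < s ∧ y < s ∧ i + 1 < (Pt ro co x y).card ∧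
      C = twoCell (en (Pt ro co x y)) i) ∨
    (∃ x y, x + 1 < s ∧ y + 1 < s ∧ C = gridCell w x y) := by
  unfold allCells at hC
  simp only [mem_union, mem_image, mem_filter, mem_product, mem_range, Prod.exists] at hC
  rcases hC with (⟨x, i, j, ⟨⟨hx, _, _⟩, hij, hj⟩, rfl⟩ | ⟨x, i, j, ⟨⟨hx, _, _⟩, hij, hj⟩, rfl⟩) |
    (⟨x, y, i, ⟨⟨hx, hy, _⟩, hi⟩, rfl⟩ | ⟨x, y, ⟨_, hx, hy⟩, rfl⟩)
  · exact Or.inl ⟨x, i, j, hx, hij, hj, rfl⟩
  · exact Or.inr (Or.inl ⟨x, i, j, hx, hij, hj, rfl⟩)
  · exact Or.inr (Or.inr (Or.inl ⟨x, y, i, hx, hy, hi, rfl⟩))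
  · exact Or.inr (Or.inr (Or.inr ⟨x, y, hx, hy, rfl⟩))

theorem cg_row_card (b : Bool) (e : ℕ → V) (i j : ℕ) : (rowCell b e i j).card ≤ 4 := by
  unfold rowCell
  split_ifs
  · exact card_le_three.trans (by norm_num)
  · exact card_le_four

theorem cg_row_ne (b : Bool) (e : ℕ → V) (i j : ℕ) : (rowCell b e i j).Nonempty := by
  unfold rowCell
  split_ifs <;> exact insert_nonempty _ _

theorem cg_row_even (b : Bool) {e : ℕ → V} {N : ℕ}
    (he : ∀ i j, i < N → j < N → e i = e j → i = j) {i j : ℕ} (hij : i < j) (hj : j + 1 < N)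
    (v : V) : Even ((rowCell b e i j).filter (fun f => v ∈ f.2)).card := by
  apply cg_even
  have hne : ∀ a c, a < N → c < N → a ≠ c → e a ≠ e c := fun a c ha hc hac h =>
    hac (he a c ha hc h)
  rw [sum_rowCell b he hij hj (fun f => if v ∈ f.2 then (1 : ZMod 2) else 0)]
  by_cases h : i + 1 = j
  · rw [if_pos h]
    have h1 := hne i (i + 1) (by omega) (by omega) (by omega)
    have h2 := hne i (i + 2) (by omega) (by omega) (by omega)
    have h3 := hne (i + 1) (i + 2) (by omega) (by omega) (by omega)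
    simp only [cg_ind h1, cg_ind h2, cg_ind h3]
    have t1 := cg_two (if v = e i then 1 else 0)
    have t2 := cg_two (if v = e (i + 1) then 1 else 0)
    have t3 := cg_two (if v = e (i + 2) then 1 else 0)
    linear_combination t1 + t2 + t3
  · rw [if_neg h]
    have h2 := hne i j (by omega) (by omega) (by omega)
    have h3 := hne i (j + 1) (by omega) (by omega) (by omega)
    have h4 := hne (i + 1) j (by omega) (by omega) (by omega)
    have h5 := hne (i + 1) (j + 1) (by omega) (by omega) (by omega)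
    simp only [cg_ind h2, cg_ind h3, cg_ind h4, cg_ind h5]
    have t1 := cg_two (if v = e i then 1 else 0)
    have t2 := cg_two (if v = e (i + 1) then 1 else 0)
    have t3 := cg_two (if v = e j then 1 else 0)
    have t4 := cg_two (if v = e (j + 1) then 1 else 0)
    linear_combination t1 + t2 + t3 + t4

/-- the labels of a row cell -/
theorem cg_row_mem {b : Bool} {e : ℕ → V} {i j : ℕ} (hij : i < j) {f : Lab V}
    (hf : f ∈ rowCell b e i j) : ∃ α β : Fin 2, i + α.1 < j + β.1 ∧
      f = (b, s(e (i + α.1), e (j + β.1))) := by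
  unfold rowCell at hf
  split_ifs at hf with h
  · subst h
    simp only [mem_insert, mem_singleton] at hf
    rcases hf with rfl | rfl | rfl
    · exact ⟨0, 0, by simp, by simp⟩
    · exact ⟨0, 1, by simp, by simp⟩
    · exact ⟨1, 1, by simp, by simp⟩
  · simp only [mem_insert, mem_singleton] at hf
    rcases hf with rfl | rfl | rfl | rfl
    · exact ⟨0, 0, by simp; omega, by simp⟩
    · exact ⟨1, 0, by simp; omega, by simp⟩
    · exact ⟨0, 1, by simp; omega, by simp⟩
    · exact ⟨1, 1, by simp; omega, by simp⟩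

/-- multiplicity for the cells of one line -/
theorem cg_row_mult (b : Bool) (R : Finset V) (u v : V) :
    ∃ 𝒟 : Finset (Finset (Lab V)), 𝒟.card ≤ 8 ∧ ∀ i j, i < j → j + 1 < R.card →
      (b, s(u, v)) ∈ rowCell b (en R) i j → rowCell b (en R) i j ∈ 𝒟 := by
  classical
  by_cases hR : u ∈ R ∧ v ∈ R
  · obtain ⟨a, ha, hau⟩ := en_surj hR.1
    obtain ⟨a', ha', hav⟩ := en_surj hR.2
    refine ⟨(univ : Finset (Fin 2 × Fin 2 × Fin 2)).image (fun t =>
      rowCell b (en R) ((if t.2.2 = 0 then a else a') - t.1.1)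
        ((if t.2.2 = 0 then a' else a) - t.2.1.1)), ?_, ?_⟩
    · refine card_image_le.trans ?_
      simp
    · intro i j hij hj hf
      obtain ⟨α, β, hab, hf⟩ := cg_row_mem hij hf
      have hα := α.2
      have hβ := β.2
      rw [Prod.mk.injEq, Sym2.eq_iff] at hf
      rcases hf.2 with ⟨h1, h2⟩ | ⟨h1, h2⟩
      · rw [← hau] at h1
        rw [← hav] at h2
        have h3 := en_inj ha (by omega) h1
        have h4 := en_inj ha' (by omega) h2
        refine mem_image.2 ⟨(α, β, 0), mem_univ _, ?_⟩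
        simp only [if_true]
        rw [h3, h4]
        simp
      · rw [← hau] at h1
        rw [← hav] at h2
        have h3 := en_inj ha (by omega) h1
        have h4 := en_inj ha' (by omega) h2
        refine mem_image.2 ⟨(α, β, 1), mem_univ _, ?_⟩
        simp only [Fin.isValue, one_ne_zero, if_false]
        rw [h3, h4]
        simp
  · refine ⟨∅, by simp, ?_⟩
    intro i j hij hj hf
    exfalso
    apply hR
    obtain ⟨α, β, hab, hf⟩ := cg_row_mem hij hf
    have hα := α.2
    have hβ := β.2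
    have m1 : en R (i + α.1) ∈ R := en_mem (by omega)
    have m2 : en R (j + β.1) ∈ R := en_mem (by omega)
    rw [Prod.mk.injEq, Sym2.eq_iff] at hf
    rcases hf.2 with ⟨h1, h2⟩ | ⟨h1, h2⟩
    · rw [h1, h2]
      exact ⟨m1, m2⟩
    · rw [h1, h2]
      exact ⟨m2, m1⟩

/-- multiplicity for the cells of the parts -/
theorem cg_two_mult (R : Finset V) (b : Bool) (u v : V) :
    ∃ 𝒟 : Finset (Finset (Lab V)), 𝒟.card ≤ 2 ∧ ∀ i, i + 1 < R.card →
      (b, s(u, v)) ∈ twoCell (en R) i → twoCell (en R) i ∈ 𝒟 := by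
  classical
  have key : ∀ i, (b, s(u, v)) ∈ twoCell (en R) i → s(u, v) = s(en R i, en R (i + 1)) := by
    intro i hf
    simp only [twoCell, mem_insert, mem_singleton, Prod.mk.injEq] at hf
    rcases hf with h | h
    · exact h.2
    · exact h.2
  by_cases hR : u ∈ R ∧ v ∈ R
  · obtain ⟨a, ha, hau⟩ := en_surj hR.1
    obtain ⟨a', ha', hav⟩ := en_surj hR.2
    refine ⟨{twoCell (en R) a, twoCell (en R) a'}, card_le_two, ?_⟩
    intro i hi hf
    have h0 := key i hf
    rw [Sym2.eq_iff] at h0
    rcases h0 with ⟨h1, -⟩ | ⟨-, h2⟩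
    · rw [← hau] at h1
      have h3 := en_inj ha (by omega) h1
      rw [h3]
      simp
    · rw [← hav] at h2
      have h3 := en_inj ha' (by omega) h2
      rw [h3]
      simp
  · refine ⟨∅, by simp, ?_⟩
    intro i hi hf
    exfalso
    apply hR
    have h0 := key i hf
    have m1 : en R i ∈ R := en_mem (by omega)
    have m2 : en R (i + 1) ∈ R := en_mem (by omega)
    rw [Sym2.eq_iff] at h0
    rcases h0 with ⟨h1, h2⟩ | ⟨h1, h2⟩
    · rw [h1, h2]
      exact ⟨m1, m2⟩
    · rw [h1, h2]
      exact ⟨m2, m1⟩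

/-- the labels of a grid cell -/
theorem cg_grid_mem {ro co : V → ℕ} {s : ℕ} {w : ℕ → ℕ → V}
    (hw : ∀ x y, x < s → y < s → ro (w x y) = x ∧ co (w x y) = y) {x y : ℕ} (hx : x + 1 < s)
    (hy : y + 1 < s) {b : Bool} {u v : V} (hf : (b, s(u, v)) ∈ gridCell w x y) :
    (ro u = x ∨ ro u = x + 1) ∧ (co u = y ∨ co u = y + 1) := by
  have h00 := hw x y (by omega) (by omega)
  have h01 := hw x (y + 1) (by omega) (by omega)
  have h10 := hw (x + 1) y (by omega) (by omega)
  have h11 := hw (x + 1) (y + 1) (by omega) (by omega)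
  simp only [gridCell, mem_insert, mem_singleton, Prod.mk.injEq, Sym2.eq_iff] at hf
  rcases hf with ⟨_, ⟨rfl, _⟩ | ⟨rfl, _⟩⟩ | ⟨_, ⟨rfl, _⟩ | ⟨rfl, _⟩⟩ | ⟨_, ⟨rfl, _⟩ | ⟨rfl, _⟩⟩ |
    ⟨_, ⟨rfl, _⟩ | ⟨rfl, _⟩⟩ <;> omega

theorem cg_grid_mult {ro co : V → ℕ} {s : ℕ} {w : ℕ → ℕ → V}
    (hw : ∀ x y, x < s → y < s → ro (w x y) = x ∧ co (w x y) = y) (b : Bool) (u v : V) :
    ∃ 𝒟 : Finset (Finset (Lab V)), 𝒟.card ≤ 4 ∧ ∀ x y, x + 1 < s → y + 1 < s →
      (b, s(u, v)) ∈ gridCell w x y → gridCell w x y ∈ 𝒟 := by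
  classical
  refine ⟨{gridCell w (ro u) (co u), gridCell w (ro u) (co u - 1),
    gridCell w (ro u - 1) (co u), gridCell w (ro u - 1) (co u - 1)}, card_le_four, ?_⟩
  intro x y hx hy hf
  obtain ⟨h1, h2⟩ := cg_grid_mem hw hx hy hf
  simp only [mem_insert, mem_singleton]
  rcases h1 with h1 | h1 <;> rcases h2 with h2 | h2 <;> rw [h1, h2]
  · exact Or.inl rfl
  · exact Or.inr (Or.inl rfl)
  · exact Or.inr (Or.inr (Or.inl rfl))
  · exact Or.inr (Or.inr (Or.inr rfl))

/-- every label is in a bounded number of cells -/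
theorem cg_mult {ro co : V → ℕ} {s : ℕ} {w : ℕ → ℕ → V}
    (hw : ∀ x y, x < s → y < s → ro (w x y) = x ∧ co (w x y) = y) (f : Lab V) :
    ((allCells ro co s w).filter (fun C => f ∈ C)).card ≤ 32 := by
  classical
  obtain ⟨b, e⟩ := f
  induction e using Sym2.ind with
  | _ u v =>
    obtain ⟨D1, c1, h1⟩ := cg_row_mult true (Rw ro (ro u)) u v
    obtain ⟨D2, c2, h2⟩ := cg_row_mult false (Rw co (co u)) u v
    obtain ⟨D3, c3, h3⟩ := cg_two_mult (Pt ro co (ro u) (co u)) b u v
    obtain ⟨D4, c4, h4⟩ := cg_grid_mult hw b u v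
    have hsub : (allCells ro co s w).filter (fun C => (b, s(u, v)) ∈ C) ⊆
        (D1 ∪ D2) ∪ (D3 ∪ D4) := by
      intro C hC
      rw [mem_filter] at hC
      obtain ⟨hC, hf⟩ := hC
      rcases cg_cases hC with ⟨x, i, j, hx, hij, hj, rfl⟩ | ⟨x, i, j, hx, hij, hj, rfl⟩ |
        ⟨x, y, i, hx, hy, hi, rfl⟩ | ⟨x, y, hx, hy, rfl⟩
      · obtain ⟨α, β, hab, hf'⟩ := cg_row_mem hij hf
        have hα := α.2
        have hβ := β.2
        have hb : b = true := (Prod.mk.inj hf').1
        have hu : ro u = x := by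
          have m1 : en (Rw ro x) (i + α.1) ∈ Rw ro x := en_mem (by omega)
          have m2 : en (Rw ro x) (j + β.1) ∈ Rw ro x := en_mem (by omega)
          have h5 := (Prod.mk.inj hf').2
          rw [Sym2.eq_iff] at h5
          rcases h5 with ⟨h6, -⟩ | ⟨h6, -⟩
          · rw [← h6] at m1
            exact (mem_filter.1 m1).2
          · rw [← h6] at m2
            exact (mem_filter.1 m2).2
        subst hu
        subst hb
        exact mem_union_left _ (mem_union_left _ (h1 i j hij hj hf))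
      · obtain ⟨α, β, hab, hf'⟩ := cg_row_mem hij hf
        have hα := α.2
        have hβ := β.2
        have hb : b = false := (Prod.mk.inj hf').1
        have hu : co u = x := by
          have m1 : en (Rw co x) (i + α.1) ∈ Rw co x := en_mem (by omega)
          have m2 : en (Rw co x) (j + β.1) ∈ Rw co x := en_mem (by omega)
          have h5 := (Prod.mk.inj hf').2
          rw [Sym2.eq_iff] at h5
          rcases h5 with ⟨h6, -⟩ | ⟨h6, -⟩
          · rw [← h6] at m1
            exact (mem_filter.1 m1).2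
          · rw [← h6] at m2
            exact (mem_filter.1 m2).2
        subst hu
        subst hb
        exact mem_union_left _ (mem_union_right _ (h2 i j hij hj hf))
      · have hu : u ∈ Pt ro co x y := by
          have m1 : en (Pt ro co x y) i ∈ Pt ro co x y := en_mem (by omega)
          have m2 : en (Pt ro co x y) (i + 1) ∈ Pt ro co x y := en_mem (by omega)
          simp only [twoCell, mem_insert, mem_singleton, Prod.mk.injEq, Sym2.eq_iff] at hf
          rcases hf with ⟨_, ⟨h6, _⟩ | ⟨h6, _⟩⟩ | ⟨_, ⟨h6, _⟩ | ⟨h6, _⟩⟩ <;> rw [h6] <;> assumption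
        obtain ⟨hu1, hu2⟩ := (mem_filter.1 hu).2
        subst hu1
        subst hu2
        exact mem_union_right _ (mem_union_left _ (h3 i hi hf))
      · exact mem_union_right _ (mem_union_right _ (h4 x y hx hy hf))
    have k0 := card_le_card hsub
    have k1 := card_union_le (D1 ∪ D2) (D3 ∪ D4)
    have k2 := card_union_le D1 D2
    have k3 := card_union_le D3 D4
    omega

theorem cg_two_even {e : ℕ → V} {i : ℕ} (h : e i ≠ e (i + 1)) (v : V) :
    Even ((twoCell e i).filter (fun f => v ∈ f.2)).card := by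
  apply cg_even
  rw [sum_twoCell e i (fun f => if v ∈ f.2 then (1 : ZMod 2) else 0)]
  exact cg_two _

theorem cg_grid_even {ro co : V → ℕ} {s : ℕ} {w : ℕ → ℕ → V}
    (hw : ∀ x y, x < s → y < s → ro (w x y) = x ∧ co (w x y) = y) {x y : ℕ} (hx : x + 1 < s)
    (hy : y + 1 < s) (v : V) : Even ((gridCell w x y).filter (fun f => v ∈ f.2)).card := by
  apply cg_even
  rw [sum_gridCell hw hx hy (fun f => if v ∈ f.2 then (1 : ZMod 2) else 0)]
  have h00 := hw x y (by omega) (by omega)
  have h01 := hw x (y + 1) (by omega) (by omega)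
  have h10 := hw (x + 1) y (by omega) (by omega)
  have h11 := hw (x + 1) (y + 1) (by omega) (by omega)
  have n1 : w x y ≠ w (x + 1) y := fun h => by
    have := h00.1; rw [h, h10.1] at this; omega
  have n3 : w x y ≠ w x (y + 1) := fun h => by
    have := h00.2; rw [h, h01.2] at this; omega
  have n5 : w x (y + 1) ≠ w (x + 1) (y + 1) := fun h => by
    have := h01.1; rw [h, h11.1] at this; omega
  have n6 : w (x + 1) y ≠ w (x + 1) (y + 1) := fun h => by
    have := h10.2; rw [h, h11.2] at this; omega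
  simp only [cg_ind n1, cg_ind n3, cg_ind n5, cg_ind n6]
  have t1 := cg_two (if v = w x y then 1 else 0)
  have t2 := cg_two (if v = w x (y + 1) then 1 else 0)
  have t3 := cg_two (if v = w (x + 1) y then 1 else 0)
  have t4 := cg_two (if v = w (x + 1) (y + 1) then 1 else 0)
  linear_combination t1 + t2 + t3 + t4

/-- the labels of the cells are labels -/
theorem cg_sub {ro co : V → ℕ} {s : ℕ} {w : ℕ → ℕ → V}
    (hw : ∀ x y, x < s → y < s → ro (w x y) = x ∧ co (w x y) = y) {C : Finset (Lab V)}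
    (hC : C ∈ allCells ro co s w) : C ⊆ labs ro co := by
  intro f hf
  rw [cg_mem_labs]
  rcases cg_cases hC with ⟨x, i, j, hx, hij, hj, rfl⟩ | ⟨x, i, j, hx, hij, hj, rfl⟩ |
    ⟨x, y, i, hx, hy, hi, rfl⟩ | ⟨x, y, hx, hy, rfl⟩
  · obtain ⟨α, β, hab, rfl⟩ := cg_row_mem hij hf
    have hα := α.2
    have hβ := β.2
    have m1 : en (Rw ro x) (i + α.1) ∈ Rw ro x := en_mem (by omega)
    have m2 : en (Rw ro x) (j + β.1) ∈ Rw ro x := en_mem (by omega)
    refine cg_lab_true (fun h => ?_) ?_
    · have := en_inj (by omega) (by omega) h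
      omega
    · rw [(mem_filter.1 m1).2, (mem_filter.1 m2).2]
  · obtain ⟨α, β, hab, rfl⟩ := cg_row_mem hij hf
    have hα := α.2
    have hβ := β.2
    have m1 : en (Rw co x) (i + α.1) ∈ Rw co x := en_mem (by omega)
    have m2 : en (Rw co x) (j + β.1) ∈ Rw co x := en_mem (by omega)
    refine cg_lab_false (fun h => ?_) ?_
    · have := en_inj (by omega) (by omega) h
      omega
    · rw [(mem_filter.1 m1).2, (mem_filter.1 m2).2]
  · have m1 : en (Pt ro co x y) i ∈ Pt ro co x y := en_mem (by omega)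
    have m2 : en (Pt ro co x y) (i + 1) ∈ Pt ro co x y := en_mem (by omega)
    have hne : en (Pt ro co x y) i ≠ en (Pt ro co x y) (i + 1) := by
      intro h
      have := en_inj (by omega) (by omega) h
      omega
    obtain ⟨a1, a2⟩ := (mem_filter.1 m1).2
    obtain ⟨b1, b2⟩ := (mem_filter.1 m2).2
    simp only [twoCell, mem_insert, mem_singleton] at hf
    rcases hf with rfl | rfl
    · exact cg_lab_true hne (by rw [a1, b1])
    · exact cg_lab_false hne (by rw [a2, b2])
  · have h00 := hw x y (by omega) (by omega)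
    have h01 := hw x (y + 1) (by omega) (by omega)
    have h10 := hw (x + 1) y (by omega) (by omega)
    have h11 := hw (x + 1) (y + 1) (by omega) (by omega)
    have n1 : w x y ≠ w (x + 1) y := fun h => by
      have := h00.1; rw [h, h10.1] at this; omega
    have n3 : w x y ≠ w x (y + 1) := fun h => by
      have := h00.2; rw [h, h01.2] at this; omega
    have n5 : w x (y + 1) ≠ w (x + 1) (y + 1) := fun h => by
      have := h01.1; rw [h, h11.1] at this; omega
    have n6 : w (x + 1) y ≠ w (x + 1) (y + 1) := fun h => by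
      have := h10.2; rw [h, h11.2] at this; omega
    simp only [gridCell, mem_insert, mem_singleton] at hf
    rcases hf with rfl | rfl | rfl | rfl
    · exact cg_lab_true n3 (by rw [h00.1, h01.1])
    · exact cg_lab_true n6 (by rw [h10.1, h11.1])
    · exact cg_lab_false n1 (by rw [h00.2, h10.2])
    · exact cg_lab_false n5 (by rw [h01.2, h11.2])

end CG

open Classical in
/-- the canonical label of an edge -/
noncomputable def cgCan {V : Type} (ro : V → ℕ) (e : Sym2 V) : Lab V :=
  (decide (∃ u v, e = s(u, v) ∧ ro u = ro v), e)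

theorem cg_can_mem {V : Type} [Fintype V] [DecidableEq V] {ro co : V → ℕ} {E : Finset (Sym2 V)}
    (hE : NW.NL E) {e : Sym2 V} (he : e ∈ Xs ro co E) : cgCan ro e ∈ labs ro co := by
  classical
  rw [cg_mem_labs]
  obtain ⟨heE, u, v, rfl, huv⟩ := mem_filter.1 he
  have hne : u ≠ v := by
    rintro rfl
    exact hE _ heE (by simp)
  by_cases h : ∃ u' v', s(u, v) = s(u', v') ∧ ro u' = ro v'
  · have h0 : cgCan ro s(u, v) = (true, s(u, v)) :=
      Prod.ext (@decide_eq_true _ (Classical.propDecidable _) h) rfl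
    rw [h0]
    apply cg_lab_true hne
    obtain ⟨u', v', h1, h2⟩ := h
    rw [Sym2.eq_iff] at h1
    rcases h1 with ⟨rfl, rfl⟩ | ⟨rfl, rfl⟩
    · exact h2
    · exact h2.symm
  · have h0 : cgCan ro s(u, v) = (false, s(u, v)) :=
      Prod.ext (@decide_eq_false _ (Classical.propDecidable _) h) rfl
    rw [h0]
    apply cg_lab_false hne
    rcases huv with h1 | h1
    · exact absurd ⟨u, v, rfl, h1⟩ h
    · exact h1

/-- row G1 -/
theorem cell : CellStatement := by
  classical
  intro V _ _ E s ro co hE hG hs hV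
  have hNV : Nonempty V := Fintype.card_pos_iff.1 (by omega)
  have hne : ∀ x y, x < s → y < s → (Pt ro co x y).Nonempty := by
    intro x y hx hy
    have v : V := Classical.arbitrary V
    have h1 := hG.cod x hx y hy v v
    by_contra h2
    rw [not_nonempty_iff_eq_empty] at h2
    rw [h2] at h1
    simp only [filter_empty, card_empty, mul_zero] at h1
    omega
  let w : ℕ → ℕ → V := fun x y =>
    if h : (Pt ro co x y).Nonempty then h.choose else Classical.arbitrary V
  have hw : ∀ x y, x < s → y < s → ro (w x y) = x ∧ co (w x y) = y := by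
    intro x y hx hy
    have h1 := hne x y hx hy
    have h2 : w x y = h1.choose := dif_pos h1
    have h3 := h1.choose_spec
    rw [← h2] at h3
    exact (mem_filter.1 h3).2
  refine ⟨allCells ro co s w, cgCan ro, ?_⟩
  refine
    { nl := hE.mono (filter_subset _ _)
      nd := fun f hf => (cg_mem_labs.1 hf).1
      can_mem := fun e he => cg_can_mem hE he
      can_snd := fun e => rfl
      sub := fun C hC => cg_sub hw hC
      ne := ?_
      card4 := ?_
      even := ?_
      mult := fun f => cg_mult hw f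
      span := ?_
      ldeg := ?_ }
  · intro C hC
    rcases cg_cases hC with ⟨x, i, j, hx, hij, hj, rfl⟩ | ⟨x, i, j, hx, hij, hj, rfl⟩ |
      ⟨x, y, i, hx, hy, hi, rfl⟩ | ⟨x, y, hx, hy, rfl⟩
    · exact cg_row_ne _ _ _ _
    · exact cg_row_ne _ _ _ _
    · exact insert_nonempty _ _
    · exact insert_nonempty _ _
  · intro C hC
    rcases cg_cases hC with ⟨x, i, j, hx, hij, hj, rfl⟩ | ⟨x, i, j, hx, hij, hj, rfl⟩ |
      ⟨x, y, i, hx, hy, hi, rfl⟩ | ⟨x, y, hx, hy, rfl⟩
    · exact cg_row_card _ _ _ _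
    · exact cg_row_card _ _ _ _
    · exact card_le_two.trans (by norm_num)
    · exact card_le_four
  · intro C hC v
    rcases cg_cases hC with ⟨x, i, j, hx, hij, hj, rfl⟩ | ⟨x, i, j, hx, hij, hj, rfl⟩ |
      ⟨x, y, i, hx, hy, hi, rfl⟩ | ⟨x, y, hx, hy, rfl⟩
    · exact cg_row_even _ (fun i j hi hj h => en_inj hi hj h) hij hj v
    · exact cg_row_even _ (fun i j hi hj h => en_inj hi hj h) hij hj v
    · refine cg_two_even (fun h => ?_) v
      have := en_inj (by omega) (by omega) h
      omega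
    · exact cg_grid_even hw hx hy v
  · intro ℓ hℓ he
    exact span_cells s ro co hG.ro_lt hG.co_lt w hw ℓ (fun f hf => cg_mem_labs.1 (hℓ hf)) he
  · intro v
    have h1 := cg_ldeg ro co v
    have h2 := hG.row (ro v)
    have h3 := hG.col (co v)
    calc ((labs ro co).filter (fun f => v ∈ f.2)).card * s
        ≤ ((Rw ro (ro v)).card + (Rw co (co v)).card) * s := Nat.mul_le_mul_right _ h1
      _ = (Rw ro (ro v)).card * s + (Rw co (co v)).card * s := by ring
      _ ≤ 4 * Fintype.card V := by omega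

end F2.O
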