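import Pool.Agent.F2.O.Base

/-!
# Project F2, block O, row E2: embedding of the absorbers
-/

set_option autoImplicit false
set_option linter.unusedSectionVars false

namespace F2.O

open Finset NW F1

/-- second half of `EmbStatement`: the pieces `W` are given -/
def EmbAStatement : Prop :=
  ∀ (ε : ℝ) (C cW : ℕ), 0 < ε → ∃ c s₀ : ℕ,
    ∀ (V : Type) [Fintype V] [DecidableEq V] (E : Finset (Sym2 V)) (s : ℕ) (ro co : V → ℕ)
      (π σ : Type) [Fintype π] [Fintype σ] [DecidableEq π] [DecidableEq σ]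
      (S : Skel V (Xs ro co E) s C π σ),
      NW.NL E → Grid E s ro co → s₀ ≤ s → c * s ≤ Fintype.card V →
      (∀ v, (3 / 4 + ε) * (Fintype.card V : ℝ) ≤ (NW.deg E v : ℝ)) →
      ∀ W : π → Finset (Sym2 V), (∀ p, W p ⊆ E \ Xs ro co E) → (∀ p, Piece (S.gv p) (W p)) →
      (∀ p q, p ≠ q → Disjoint (W p) (W q)) →
      (∀ v, NW.deg (univ.biUnion W) v * s ≤ cW * Fintype.card V) →
      ∃ (A : σ → Finset (Sym2 V)) (U : σ → Finset V),
        Emb (E \ Xs ro co E) (Xs ro co E) s C S W A U c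

section

variable {V : Type} [Fintype V] [DecidableEq V] {X : Finset (Sym2 V)} {s C : ℕ}
  {π σ : Type} [Fintype π] [Fintype σ] [DecidableEq π] [DecidableEq σ]

/-- the edges of a site -/
noncomputable def oeS (S : Skel V X s C π σ) (W : π → Finset (Sym2 V)) (t : σ) :
    Finset (Sym2 V) := by
  classical exact S.xs t ∪ (univ.filter (fun p => S.ok p t)).biUnion W

theorem oe_card (S : Skel V X s C π σ) (W : π → Finset (Sym2 V))
    (hW : ∀ p, Piece (S.gv p) (W p)) (t : σ) : (vE (oeS S W t)).card ≤ 2 * (1 + 4 * C) := by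
  classical
  refine (vE_card _).trans (Nat.mul_le_mul_left 2 ?_)
  obtain ⟨P, hP, hP2⟩ := S.at_le t
  unfold oeS
  refine (card_union_le _ _).trans (Nat.add_le_add (S.xs_card t) ?_)
  refine card_biUnion_le.trans ?_
  calc ∑ p ∈ univ.filter (fun p => S.ok p t), (W p).card
      ≤ ∑ p ∈ univ.filter (fun p => S.ok p t), 4 := sum_le_sum fun p _ => (hW p).card_le
    _ = (univ.filter (fun p => S.ok p t)).card * 4 := by rw [sum_const, smul_eq_mul]
    _ ≤ P.card * 4 := by
        refine Nat.mul_le_mul_right _ (card_le_card fun p hp => hP2 p ?_)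
        exact (mem_filter.1 hp).2
    _ ≤ 4 * C := by omega

theorem oe_count (S : Skel V X s C π σ) (W : π → Finset (Sym2 V))
    (hd : ∀ p q, p ≠ q → Disjoint (W p) (W q)) (v : V) :
    (univ.filter (fun t => v ∈ vE (oeS S W t))).card ≤
      NW.deg X v + 2 * NW.deg (univ.biUnion W) v := by
  classical
  have hok : ∀ p, ∃ T : Finset σ, T.card ≤ 2 ∧ ∀ t, S.ok p t → t ∈ T := S.ok_le
  choose T hT1 hT2 using hok
  have h1 : univ.filter (fun t => v ∈ vE (oeS S W t)) ⊆
      univ.filter (fun t => v ∈ vE (S.xs t)) ∪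
        (univ.filter (fun p => v ∈ vE (W p))).biUnion T := by
    intro t ht
    rw [mem_filter] at ht
    have h2 := ht.2
    unfold oeS at h2
    rw [vE_union, mem_union, vE_biUnion, mem_biUnion] at h2
    rw [mem_union, mem_filter, mem_biUnion]
    rcases h2 with h2 | ⟨p, hp, h2⟩
    · exact Or.inl ⟨mem_univ _, h2⟩
    · exact Or.inr ⟨p, mem_filter.2 ⟨mem_univ _, h2⟩, hT2 p t (mem_filter.1 hp).2⟩
  refine (card_le_card h1).trans ((card_union_le _ _).trans (Nat.add_le_add ?_ ?_))
  · refine (count_le_deg univ S.xs ?_ v).trans ?_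
    · intro t _ t' _ htt
      rw [disjoint_left]
      intro e he he'
      exact htt (S.xs_uniq t t' e he he')
    · apply NW.deg_mono
      intro e he
      obtain ⟨t, _, ht⟩ := mem_biUnion.1 he
      exact S.xs_sub t ht
  · refine card_biUnion_le.trans ?_
    calc ∑ p ∈ univ.filter (fun p => v ∈ vE (W p)), (T p).card
        ≤ ∑ p ∈ univ.filter (fun p => v ∈ vE (W p)), 2 := sum_le_sum fun p _ => hT1 p
      _ = 2 * (univ.filter (fun p => v ∈ vE (W p))).card := by
          rw [sum_const, smul_eq_mul, mul_comm]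
      _ ≤ 2 * NW.deg (univ.biUnion W) v := by
          refine Nat.mul_le_mul_left 2 (count_le_deg univ W ?_ v)
          exact fun p _ q _ h => hd p q h

end

theorem embA (hG : GreedyStatement) (hH : HostStatement) (hA : AbsStatement) :
    EmbAStatement := by
  intro ε C cW hε
  obtain ⟨Ca, hCa⟩ := hA (2 * (1 + 4 * C))
  obtain ⟨c₁, hc₁⟩ := hG (max C (4 + 2 * cW)) Ca (ε / 2) (by positivity)
  obtain ⟨s₁, hs1, hHost⟩ := hH ε (c₁ + cW) hε
  obtain ⟨N, hN⟩ := exists_nat_ge ((2 * (2 * (1 + 4 * C)) + Ca : ℝ) / ε)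
  refine ⟨N + 1 + c₁ + cW + Ca, s₁, ?_⟩
  intro V _ _ E s ro co π σ _ _ _ _ S hNL hgrid hs hcs hdeg W hW1 hW2 hW3 hW4
  classical
  have hs0 : 1 ≤ s := hs1.trans hs
  obtain ⟨hX, hcn⟩ := hHost V E s ro co hNL hgrid hs hdeg
  set n : ℕ := Fintype.card V with hn
  have hNn : N ≤ n := by nlinarith
  have hsn : s ≤ n := by nlinarith
  have hn1 : 1 ≤ n := hs0.trans hsn
  have hεn : (2 * (2 * (1 + 4 * C)) + Ca : ℝ) ≤ ε * n := by
    have h1 : ((2 * (2 * (1 + 4 * C)) + Ca : ℝ) / ε) ≤ n := hN.trans (by exact_mod_cast hNn)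
    rw [div_le_iff₀ hε] at h1
    linarith
  have hCaN : (Ca : ℝ) ≤ ε * n := by
    have : (0 : ℝ) ≤ 2 * (2 * (1 + 4 * C)) := by positivity
    linarith
  have hmN : (2 * (1 + 4 * C) : ℝ) ≤ ε / 2 * n := by
    have : (0 : ℝ) ≤ Ca := by positivity
    linarith
  obtain ⟨A, hA1, hA2, hA3⟩ := hc₁ V ((E \ Xs ro co E) \ univ.biUnion W) s σ
    (fun t => vE (oeS S W t)) (fun t B => Absorbs (vE (oeS S W t)) B) hs0 hsn
    (S.σ_card.trans (Nat.mul_le_mul_right _ (le_max_left _ _)))
    (fun v => by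
      calc (univ.filter (fun t => v ∈ vE (oeS S W t))).card * s
          ≤ (NW.deg (Xs ro co E) v + 2 * NW.deg (univ.biUnion W) v) * s :=
            Nat.mul_le_mul_right _ (oe_count S W hW3 v)
        _ = NW.deg (Xs ro co E) v * s + 2 * (NW.deg (univ.biUnion W) v * s) := by ring
        _ ≤ 4 * n + 2 * (cW * n) := Nat.add_le_add (hX v) (Nat.mul_le_mul_left 2 (hW4 v))
        _ = (4 + 2 * cW) * n := by ring
        _ ≤ max C (4 + 2 * cW) * n := Nat.mul_le_mul_right _ (le_max_right _ _))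
    (fun t Z F hZ hF => by
      have hU := oe_card S W hW2 t
      obtain ⟨B, hB1, hB2, hB3, hB4⟩ := hCa V (((E \ Xs ro co E) \ univ.biUnion W) \ Z)
        (vE (oeS S W t)) F (hNL.mono (sdiff_subset.trans (sdiff_subset.trans sdiff_subset))) hU
        (fun T hT => by
          have h1 := hcn (univ.biUnion W ∪ Z) T (F ∪ vE (oeS S W t)) hT
            (fun v => by
              calc NW.deg (univ.biUnion W ∪ Z) v * s
                  ≤ (NW.deg (univ.biUnion W) v + NW.deg Z v) * s :=
                    Nat.mul_le_mul_right _ (NW.deg_union_le _ _ _)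
                _ = NW.deg (univ.biUnion W) v * s + NW.deg Z v * s := by ring
                _ ≤ cW * n + c₁ * n := Nat.add_le_add (hW4 v) (hZ v)
                _ = (c₁ + cW) * n := by ring)
            (by
              have h2 : ((F ∪ vE (oeS S W t)).card : ℝ) ≤ F.card + (vE (oeS S W t)).card := by
                exact_mod_cast card_union_le _ _
              have h3 : ((vE (oeS S W t)).card : ℝ) ≤ 2 * (1 + 4 * C) := by exact_mod_cast hU
              linarith)
          have h4 : (E \ Xs ro co E) \ (univ.biUnion W ∪ Z) =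
              ((E \ Xs ro co E) \ univ.biUnion W) \ Z := by
            ext e
            simp only [mem_sdiff, mem_union, not_or]
            tauto
          rw [h4] at h1
          exact_mod_cast hCaN.trans h1)
      exact ⟨B, hB1, hB2, hB3, hB4⟩)
  refine ⟨A, fun t => vE (oeS S W t), ?_⟩
  have hle : ∀ x, x ≤ c₁ + cW + Ca → x * n ≤ (N + 1 + c₁ + cW + Ca) * n := fun x hx =>
    Nat.mul_le_mul_right _ (by omega)
  refine ⟨hW1, hW2, hW3, fun t => (hA1 t).1, hA2, fun t => (hA1 t).2.1.trans (by omega),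
    fun t => (hA1 t).2.2, ?_, ?_, fun v => (hW4 v).trans (hle _ (by omega)),
    fun v => (hA3 v).trans (hle _ (by omega))⟩
  · intro p t hpt
    unfold oeS
    rw [vE_union, vE_biUnion]
    intro v hv
    exact mem_union_right _ (mem_biUnion.2 ⟨p, mem_filter.2 ⟨mem_univ _, hpt⟩, hv⟩)
  · intro t
    unfold oeS
    rw [vE_union]
    exact subset_union_left

end F2.O
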