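import Pool.Agent.F2.O.Base

/-!
# Project F2, block O: embedding of the pieces
-/

set_option autoImplicit false
set_option linter.unusedSectionVars false

namespace F2.O

open Finset NW F1

/-- O-E1: the pieces of a skeleton can be embedded -/
def EmbWStatement : Prop :=
  ∀ (ε : ℝ) (C : ℕ), 0 < ε → ∃ c s₀ : ℕ,
    ∀ (V : Type) [Fintype V] [DecidableEq V] (E : Finset (Sym2 V)) (s : ℕ) (ro co : V → ℕ)
      (π σ : Type) [Fintype π] [Fintype σ] [DecidableEq π] [DecidableEq σ]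
      (S : Skel V (Xs ro co E) s C π σ),
      NW.NL E → Grid E s ro co → s₀ ≤ s → c * s ≤ Fintype.card V →
      (∀ v, (3 / 4 + ε) * (Fintype.card V : ℝ) ≤ (NW.deg E v : ℝ)) →
      ∃ W : π → Finset (Sym2 V), (∀ p, W p ⊆ E \ Xs ro co E) ∧ (∀ p, Piece (S.gv p) (W p)) ∧
        (∀ p q, p ≠ q → Disjoint (W p) (W q)) ∧
        ∀ v, NW.deg (univ.biUnion W) v * s ≤ c * Fintype.card V

theorem embW (hG : GreedyStatement) (hH : HostStatement) (hP : PieceStatement) :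
    EmbWStatement := by
  intro ε C hε
  obtain ⟨c₁, hG1⟩ := hG C 4 ε hε
  obtain ⟨s₀, hs₀, hH1⟩ := hH ε c₁ hε
  refine ⟨max (max c₁ 1) ⌈8 / ε⌉₊, s₀, ?_⟩
  intro V _ _ E s ro co π σ _ _ _ _ S hE hgrid hs hc hdeg
  set c : ℕ := max (max c₁ 1) ⌈8 / ε⌉₊ with hcdef
  have hc1 : c₁ ≤ c := (le_max_left _ _).trans (le_max_left _ _)
  have hc2 : 1 ≤ c := (le_max_right _ _).trans (le_max_left _ _)
  have hc3 : 8 / ε ≤ (c : ℝ) :=
    (Nat.le_ceil _).trans (by exact_mod_cast le_max_right (max c₁ 1) ⌈8 / ε⌉₊)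
  have hs1 : 1 ≤ s := hs₀.trans hs
  have hsn : s ≤ Fintype.card V := (Nat.le_mul_of_pos_left s hc2).trans hc
  have hcn : c ≤ Fintype.card V := (Nat.le_mul_of_pos_right c hs1).trans hc
  have h8 : (8 : ℝ) ≤ ε * Fintype.card V := by
    have h1 : 8 / ε ≤ (Fintype.card V : ℝ) := hc3.trans (by exact_mod_cast hcn)
    rw [div_le_iff₀ hε] at h1
    linarith
  obtain ⟨-, hH2⟩ := hH1 V E s ro co hE hgrid hs hdeg
  obtain ⟨W, hW1, hW2, hW3⟩ := hG1 V (E \ Xs ro co E) s π S.gv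
    (fun p W => Piece (S.gv p) W) hs1 hsn S.π_card S.gv_mult (by
      intro i Z F hZ hF
      obtain ⟨A, hA1, hA2, hA3⟩ := hP V ((E \ Xs ro co E) \ Z) (S.gv i) F
        (fun e he => hE e (mem_sdiff.1 (mem_sdiff.1 he).1).1) (S.gv_card i) (by
          intro T hT
          have h1 := h8.trans (hH2 Z T F hT hZ hF)
          exact_mod_cast h1)
      exact ⟨A, hA1, hA2.card_le, hA3, hA2⟩)
  refine ⟨W, fun p => (hW1 p).1, fun p => (hW1 p).2.2, hW2, fun v => ?_⟩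
  exact (hW3 v).trans (Nat.mul_le_mul_right _ hc1)

end F2.O
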