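import Pool.Agent.F2.O.Base

/-!
# Project F2, block O, row F: an embedded skeleton is an omni-absorber
-/

set_option autoImplicit false
set_option linter.unusedSectionVars false

namespace F2.O

open Finset NW F1

section

variable {V : Type} [Fintype V] [DecidableEq V]

theorem fn_pk (E : Finset (Sym2 V)) : ∃ 𝒯 : Finset (Tri V), Dec E →
    (∀ T ∈ 𝒯, ∀ T' ∈ 𝒯, T ≠ T' → Disjoint (NW.edg T.1) (NW.edg T'.1)) ∧
    𝒯.biUnion (fun T => NW.edg T.1) = E ∧ 𝒯.card ≤ E.card := by
  classical
  by_cases hE : Dec E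
  · obtain ⟨𝒯, h𝒯, hU⟩ := hE.exists_pack
    set 𝒯' : Finset (Tri V) := univ.filter (fun T => T.1 ∈ 𝒯) with h𝒯'
    have hdis : ∀ T ∈ 𝒯', ∀ T' ∈ 𝒯', T ≠ T' → Disjoint (NW.edg T.1) (NW.edg T'.1) := by
      intro T hT T' hT' hne
      exact h𝒯.2 _ (mem_filter.1 hT).2 _ (mem_filter.1 hT').2 (fun h => hne (Subtype.ext h))
    have hun : 𝒯'.biUnion (fun T => NW.edg T.1) = E := by
      rw [← hU]
      ext e
      simp only [mem_biUnion]
      constructor
      · rintro ⟨T, hT, he⟩
        exact ⟨T.1, (mem_filter.1 hT).2, he⟩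
      · rintro ⟨t, ht, he⟩
        exact ⟨⟨t, (h𝒯.1 t ht).1⟩, mem_filter.2 ⟨mem_univ _, ht⟩, he⟩
    refine ⟨𝒯', fun _ => ⟨hdis, hun, ?_⟩⟩
    rw [← hun, card_biUnion hdis, card_eq_sum_ones]
    refine sum_le_sum fun T _ => ?_
    rw [Nat.succ_le_iff, card_pos]
    obtain ⟨a, b, c, hab, hac, hbc, h⟩ := card_eq_three.1 T.2
    exact ⟨s(a, b), by rw [h, mk_mem_edg]; simp [hab]⟩
  · exact ⟨∅, fun h => absurd h hE⟩

/-- a triangle at `v` has an edge at `v` -/
theorem fn_edge {r : Tri V} {v : V} (hv : v ∈ r.1) : ∃ e ∈ NW.edg r.1, v ∈ e := by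
  have h1 : 1 < r.1.card := by rw [r.2]; norm_num
  obtain ⟨u, hu, huv⟩ := exists_mem_ne h1 v
  exact ⟨s(v, u), mk_mem_edg.2 ⟨hv, hu, huv.symm⟩, Sym2.mem_mk_left _ _⟩

end

theorem fin : FinStatement := by
  classical
  intro C c
  set K : ℕ := 2 ^ (4 * C + 1) * (c + (4 * C + 1)) with hK
  refine ⟨4 * K * (2 * c + 4) + 2 * c + 4 * K, ?_⟩
  intro V _ _ H X s π σ _ _ _ _ S W A U hH hX hHX hXd hE
  choose pk hpk using (fun E : Finset (Sym2 V) => fn_pk E)
  -- the available edges at a site
  set Y : σ → Finset (Sym2 V) := fun t =>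
    (univ.filter (fun p => S.ok p t)).biUnion W ∪ S.xs t with hY
  have hYcard : ∀ t, (Y t).card ≤ 4 * C + 1 := by
    intro t
    obtain ⟨P, hP, hP'⟩ := S.at_le t
    have h1 : ((univ.filter (fun p => S.ok p t)).biUnion W).card ≤ 4 * C := by
      refine (card_biUnion_le_card_mul _ _ 4 fun p _ => (hE.W_piece p).card_le).trans ?_
      have h2 : (univ.filter (fun p => S.ok p t)).card ≤ C :=
        (card_le_card fun p hp => hP' p (mem_filter.1 hp).2).trans hP
      calc _ ≤ C * 4 := Nat.mul_le_mul_right 4 h2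
        _ = 4 * C := by ring
    exact (card_union_le _ _).trans (Nat.add_le_add h1 (S.xs_card t))
  have hYU : ∀ t, Y t ⊆ (U t).sym2 := by
    intro t
    apply sub_sym2'
    rw [hY]
    simp only
    rw [vE_union, vE_biUnion]
    refine union_subset (biUnion_subset.2 fun p hp => ?_) (hE.U_x t)
    exact hE.U_W p t (mem_filter.1 hp).2
  have hdec : ∀ t D, D ⊆ Y t → Divis D → Dec (A t ∪ D) := fun t D hD hD' =>
    (hE.A_abs t).abs D (hD.trans (hYU t)) hD'
  set RTt : σ → Finset (Tri V) := fun t =>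
    ((Y t).powerset.filter (fun D => Divis D)).biUnion (fun D => pk (A t ∪ D)) with hRTt
  set RT : Finset (Tri V) := univ.biUnion RTt with hRT
  set BW : Finset (Sym2 V) := univ.biUnion W with hBW
  set BA : Finset (Sym2 V) := univ.biUnion A with hBA
  have hWB : ∀ p, W p ⊆ BW := fun p => subset_biUnion_of_mem W (mem_univ p)
  have hAB : ∀ t, A t ⊆ BA := fun t => subset_biUnion_of_mem A (mem_univ t)
  have hBWH : BW ⊆ H := biUnion_subset.2 fun p _ => hE.W_sub p
  have hBAH : BA ⊆ H \ BW := biUnion_subset.2 fun t _ => hE.A_sub t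
  have hedge : ∀ t, ∀ r ∈ RTt t, NW.edg r.1 ⊆ A t ∪ Y t := by
    intro t r hr
    obtain ⟨D, hD, hr'⟩ := mem_biUnion.1 hr
    obtain ⟨hD1, hD2⟩ := mem_filter.1 hD
    have hD1' := mem_powerset.1 hD1
    obtain ⟨-, h2, -⟩ := hpk _ (hdec t D hD1' hD2)
    have h3 : NW.edg r.1 ⊆ (pk (A t ∪ D)).biUnion (fun T => NW.edg T.1) :=
      subset_biUnion_of_mem (fun T : Tri V => NW.edg T.1) hr'
    rw [h2] at h3
    exact h3.trans (union_subset_union_right hD1')
  have hRcard : ∀ t, (RTt t).card ≤ K := by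
    intro t
    have h1 : ((Y t).powerset.filter (fun D => Divis D)).card ≤ 2 ^ (4 * C + 1) :=
      (card_filter_le _ _).trans (by
        rw [card_powerset]
        exact Nat.pow_le_pow_right (by norm_num) (hYcard t))
    refine (card_biUnion_le_card_mul _ _ (c + (4 * C + 1)) fun D hD => ?_).trans
      (Nat.mul_le_mul_right _ h1)
    obtain ⟨hD1, hD2⟩ := mem_filter.1 hD
    have hD1' := mem_powerset.1 hD1
    obtain ⟨-, -, h3⟩ := hpk _ (hdec t D hD1' hD2)
    exact h3.trans ((card_union_le _ _).trans (Nat.add_le_add (hE.A_card t)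
      ((card_le_card hD1').trans (hYcard t))))
  have hYB : ∀ t, A t ∪ Y t ⊆ (BW ∪ BA) ∪ X := by
    intro t e he
    rcases mem_union.1 he with h | h
    · exact mem_union_left _ (mem_union_right _ (hAB t h))
    · rcases mem_union.1 h with h | h
      · obtain ⟨p, -, hp⟩ := mem_biUnion.1 h
        exact mem_union_left _ (mem_union_left _ (hWB p hp))
      · exact mem_union_right _ (S.xs_sub t h)
  have hRsub : ∀ r ∈ RT, NW.edg r.1 ⊆ (BW ∪ BA) ∪ X := by
    intro r hr
    obtain ⟨t, -, ht⟩ := mem_biUnion.1 hr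
    exact (hedge t r ht).trans (hYB t)
  -- the sites of an edge
  have hsite : ∀ e, ∃ T : Finset σ, T.card ≤ 4 ∧ ∀ t, e ∈ A t ∪ Y t → t ∈ T := by
    intro e
    have h1 : (univ.filter (fun t => e ∈ A t)).card ≤ 1 := by
      rw [card_le_one]
      intro t ht t' ht'
      by_contra hne
      exact disjoint_left.1 (hE.A_disj t t' hne) (mem_filter.1 ht).2 (mem_filter.1 ht').2
    have h3 : (univ.filter (fun t => e ∈ S.xs t)).card ≤ 1 := by
      rw [card_le_one]
      intro t ht t' ht'
      exact S.xs_uniq t t' e (mem_filter.1 ht).2 (mem_filter.1 ht').2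
    obtain ⟨T2, h2, h2'⟩ : ∃ T : Finset σ, T.card ≤ 2 ∧ ∀ p t, e ∈ W p → S.ok p t → t ∈ T := by
      by_cases hp : ∃ p, e ∈ W p
      · obtain ⟨p, hp⟩ := hp
        obtain ⟨T, hT, hT'⟩ := S.ok_le p
        refine ⟨T, hT, fun q t hq hqt => ?_⟩
        have hpq : p = q := by
          by_contra hne
          exact disjoint_left.1 (hE.W_disj p q hne) hp hq
        exact hT' t (hpq ▸ hqt)
      · exact ⟨∅, by simp, fun p t h => absurd ⟨p, h⟩ hp⟩
    refine ⟨univ.filter (fun t => e ∈ A t) ∪ T2 ∪ univ.filter (fun t => e ∈ S.xs t), ?_,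
      fun t ht => ?_⟩
    · have g1 := card_union_le (univ.filter (fun t => e ∈ A t) ∪ T2)
        (univ.filter (fun t => e ∈ S.xs t))
      have g2 := card_union_le (univ.filter (fun t => e ∈ A t)) T2
      omega
    · rcases mem_union.1 ht with h | h
      · exact mem_union_left _ (mem_union_left _ (mem_filter.2 ⟨mem_univ _, h⟩))
      · rcases mem_union.1 h with h | h
        · obtain ⟨p, hp, hp'⟩ := mem_biUnion.1 h
          exact mem_union_left _ (mem_union_right _ (h2' p t hp' (mem_filter.1 hp).2))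
        · exact mem_union_right _ (mem_filter.2 ⟨mem_univ _, h⟩)
  have hmult : ∀ e, (RT.filter (fun r => e ∈ NW.edg r.1)).card ≤ 4 * K := by
    intro e
    obtain ⟨T, hT, hT'⟩ := hsite e
    have h1 : RT.filter (fun r => e ∈ NW.edg r.1) ⊆ T.biUnion RTt := by
      intro r hr
      obtain ⟨hr1, hr2⟩ := mem_filter.1 hr
      obtain ⟨t, -, ht⟩ := mem_biUnion.1 hr1
      exact mem_biUnion.2 ⟨t, hT' t (hedge t r ht hr2), ht⟩
    exact (card_le_card h1).trans ((card_biUnion_le_card_mul _ _ K fun t _ => hRcard t).trans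
      (Nat.mul_le_mul_right _ hT))
  have hdegB : ∀ v, NW.deg (BW ∪ BA) v * s ≤ 2 * c * Fintype.card V := by
    intro v
    have h1 := deg_union_le BW BA v
    have h2 := hE.W_deg v
    have h3 := hE.A_deg v
    calc NW.deg (BW ∪ BA) v * s ≤ (NW.deg BW v + NW.deg BA v) * s := Nat.mul_le_mul_right _ h1
      _ = NW.deg BW v * s + NW.deg BA v * s := by ring
      _ ≤ c * Fintype.card V + c * Fintype.card V := Nat.add_le_add h2 h3
      _ = 2 * c * Fintype.card V := by ring
  refine ⟨BW ∪ BA, RT, union_subset hBWH (hBAH.trans sdiff_subset), hRsub, fun v => ?_,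
    fun v => ?_, fun e => ?_, fun L hL hdiv => ?_⟩
  · exact (hdegB v).trans (Nat.mul_le_mul_right _ (by omega))
  · -- the triangles at a vertex
    have h1 : RT.filter (fun r => v ∈ r.1) ⊆
        (((BW ∪ BA) ∪ X).filter (fun e => v ∈ e)).biUnion
          (fun e => RT.filter (fun r => e ∈ NW.edg r.1)) := by
      intro r hr
      obtain ⟨hr1, hr2⟩ := mem_filter.1 hr
      obtain ⟨e, he, hve⟩ := fn_edge hr2
      exact mem_biUnion.2 ⟨e, mem_filter.2 ⟨hRsub r hr1 he, hve⟩, mem_filter.2 ⟨hr1, he⟩⟩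
    have h2 : (RT.filter (fun r => v ∈ r.1)).card ≤ NW.deg ((BW ∪ BA) ∪ X) v * (4 * K) := by
      refine (card_le_card h1).trans ((card_biUnion_le_card_mul _ _ (4 * K)
        fun e _ => hmult e).trans ?_)
      rw [card_inc]
    have h3 := deg_union_le (BW ∪ BA) X v
    have h4 := hdegB v
    have h5 := hXd v
    calc (RT.filter (fun r => v ∈ r.1)).card * s
        ≤ ((NW.deg (BW ∪ BA) v + NW.deg X v) * (4 * K)) * s :=
          Nat.mul_le_mul_right _ (h2.trans (Nat.mul_le_mul_right _ h3))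
      _ = 4 * K * (NW.deg (BW ∪ BA) v * s + NW.deg X v * s) := by ring
      _ ≤ 4 * K * (2 * c * Fintype.card V + 4 * Fintype.card V) :=
          Nat.mul_le_mul_left _ (Nat.add_le_add h4 h5)
      _ = (4 * K * (2 * c + 4)) * Fintype.card V := by ring
      _ ≤ _ := Nat.mul_le_mul_right _ (by omega)
  · exact (hmult e).trans (by omega)
  · -- the decomposition
    have hdWX : Disjoint BW X := disjoint_of_subset_left hBWH hHX
    have hdAX : Disjoint BA X := disjoint_of_subset_left (hBAH.trans sdiff_subset) hHX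
    have hdWA : Disjoint BW BA := disjoint_of_subset_right hBAH disjoint_sdiff
    have hdecA : Dec BA := Dec.biUnion _ A (fun t _ => (hE.A_abs t).dec)
      (fun t _ t' _ hne => hE.A_disj t t' hne)
    have hdiv' : Divis (BW ∪ L) := by
      refine divis_of_union (B := BA) ?_ hdecA.divis ?_
      · have : BW ∪ L ∪ BA = BW ∪ BA ∪ L := by
          rw [union_assoc, union_assoc, union_comm L BA]
        rw [this]
        exact hdiv
      · exact disjoint_union_left.2 ⟨hdWA, (disjoint_of_subset_right hL hdAX).symm⟩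
    obtain ⟨loc, hl1, hl2⟩ := S.state W hE.W_piece hE.W_disj
      (fun p => disjoint_of_subset_left (hWB p) hdWX) L hL hdiv'
    set D : σ → Finset (Sym2 V) := fun t =>
      (univ.filter (fun p => loc p = t)).biUnion W ∪ (L ∩ S.xs t) with hD
    have hDY : ∀ t, D t ⊆ Y t := by
      intro t
      refine union_subset_union (biUnion_subset_biUnion_of_subset_left _ fun p hp => ?_)
        inter_subset_right
      rw [mem_filter] at hp ⊢
      exact ⟨mem_univ _, hp.2 ▸ hl1 p⟩
    have hDd : ∀ t, Dec (A t ∪ D t) := fun t => hdec t (D t) (hDY t) (hl2 t)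
    have hDWX : ∀ t, D t ⊆ BW ∪ X := by
      intro t
      refine union_subset_union (biUnion_subset.2 fun p _ => hWB p) ?_
      exact inter_subset_right.trans (S.xs_sub t)
    have hdisAD : ∀ t t', Disjoint (A t) (D t') := by
      intro t t'
      refine disjoint_of_subset_left (hAB t) (disjoint_of_subset_right (hDWX t') ?_)
      exact disjoint_union_right.2 ⟨hdWA.symm, hdAX⟩
    have hdisDD : ∀ t t', t ≠ t' → Disjoint (D t) (D t') := by
      intro t t' hne
      rw [disjoint_left]
      intro e he he'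
      rcases mem_union.1 he with h | h <;> rcases mem_union.1 he' with h' | h'
      · obtain ⟨p, hp, hep⟩ := mem_biUnion.1 h
        obtain ⟨p', hp', hep'⟩ := mem_biUnion.1 h'
        have hpp : p = p' := by
          by_contra hcon
          exact disjoint_left.1 (hE.W_disj p p' hcon) hep hep'
        subst hpp
        exact hne ((mem_filter.1 hp).2.symm.trans (mem_filter.1 hp').2)
      · obtain ⟨p, hp, hep⟩ := mem_biUnion.1 h
        exact disjoint_left.1 hdWX (hWB p hep) (S.xs_sub _ (mem_inter.1 h').2)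
      · obtain ⟨p, hp, hep⟩ := mem_biUnion.1 h'
        exact disjoint_left.1 hdWX (hWB p hep) (S.xs_sub _ (mem_inter.1 h).2)
      · exact hne (S.xs_uniq t t' e (mem_inter.1 h).2 (mem_inter.1 h').2)
    have hsubT : ∀ t, ∀ T ∈ pk (A t ∪ D t), NW.edg T.1 ⊆ A t ∪ D t := by
      intro t T hT
      obtain ⟨-, h2, -⟩ := hpk _ (hDd t)
      have h3 : NW.edg T.1 ⊆ (pk (A t ∪ D t)).biUnion (fun T => NW.edg T.1) :=
        subset_biUnion_of_mem (fun T : Tri V => NW.edg T.1) hT
      rwa [h2] at h3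
    refine ⟨univ.biUnion (fun t => pk (A t ∪ D t)), ?_, ?_, ?_⟩
    · intro T hT
      obtain ⟨t, -, ht⟩ := mem_biUnion.1 hT
      refine mem_biUnion.2 ⟨t, mem_univ _, mem_biUnion.2 ⟨D t, ?_, ht⟩⟩
      exact mem_filter.2 ⟨mem_powerset.2 (hDY t), hl2 t⟩
    · intro T hT T' hT' hne
      obtain ⟨t, -, ht⟩ := mem_biUnion.1 hT
      obtain ⟨t', -, ht'⟩ := mem_biUnion.1 hT'
      by_cases htt : t = t'
      · subst htt
        exact (hpk _ (hDd t)).1 T ht T' ht' hne
      · refine disjoint_of_subset_left (hsubT t T ht)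
          (disjoint_of_subset_right (hsubT t' T' ht') ?_)
        refine disjoint_union_left.2 ⟨disjoint_union_right.2 ⟨hE.A_disj t t' htt, hdisAD t t'⟩,
          disjoint_union_right.2 ⟨(hdisAD t' t).symm, hdisDD t t' htt⟩⟩
    · ext e
      simp only [mem_biUnion]
      constructor
      · rintro ⟨T, ⟨t, -, ht⟩, he⟩
        rcases mem_union.1 (hsubT t T ht he) with h | h
        · exact mem_union_left _ (mem_union_right _ (hAB t h))
        · rcases mem_union.1 h with h | h
          · obtain ⟨p, -, hp⟩ := mem_biUnion.1 h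
            exact mem_union_left _ (mem_union_left _ (hWB p hp))
          · exact mem_union_right _ (mem_inter.1 h).1
      · intro he
        obtain ⟨t, ht⟩ : ∃ t, e ∈ A t ∪ D t := by
          rcases mem_union.1 he with h | h
          · rcases mem_union.1 h with h | h
            · obtain ⟨p, -, hp⟩ := mem_biUnion.1 h
              exact ⟨loc p, mem_union_right _ (mem_union_left _
                (mem_biUnion.2 ⟨p, mem_filter.2 ⟨mem_univ _, rfl⟩, hp⟩))⟩
            · obtain ⟨t, -, ht⟩ := mem_biUnion.1 h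
              exact ⟨t, mem_union_left _ ht⟩
          · obtain ⟨t, ht⟩ := S.xs_ex e (hL h)
            exact ⟨t, mem_union_right _ (mem_union_right _ (mem_inter.2 ⟨h, ht⟩))⟩
        have h2 := (hpk _ (hDd t)).2.1
        rw [← h2] at ht
        obtain ⟨T, hT, heT⟩ := mem_biUnion.1 ht
        exact ⟨T, ⟨t, mem_univ _, hT⟩, heT⟩

end F2.O
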