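import Pool.Agent.F2.O.Base

/-!
# Project F2, block O, row G2: the skeleton of a system of cells, all fields except the states
-/

set_option autoImplicit false
set_option linter.unusedSectionVars false

namespace F2.O

open Finset NW F1

section SkG2

variable {V : Type} [Fintype V] [DecidableEq V] {X : Finset (Sym2 V)} {ℒ : Finset (Lab V)}
  {𝒞 : Finset (Finset (Lab V))} {can : Sym2 V → Lab V} {c s : ℕ}

/-- the two ends of a label -/
theorem sk_ends {e : Sym2 V} (h : ¬ e.IsDiag) : (univ.filter (fun v => v ∈ e)).card = 2 := by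
  induction e using Sym2.ind with
  | _ x y =>
    have hxy : x ≠ y := by simpa using h
    have h1 : univ.filter (fun v => v ∈ s(x, y)) = {x, y} := by
      ext v
      simp
    rw [h1, card_pair hxy]

/-- the number of labels -/
theorem sk_lab (h : Cell X ℒ 𝒞 can c s) : ℒ.card * s ≤ 2 * Fintype.card V ^ 2 := by
  have h1 : ∑ v : V, (ℒ.filter (fun f => v ∈ f.2)).card = 2 * ℒ.card := by
    simp_rw [card_filter]
    rw [sum_comm]
    have h2 : ∀ f ∈ ℒ, ∑ v : V, (if v ∈ f.2 then 1 else 0) = 2 := by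
      intro f hf
      rw [← card_filter]
      exact sk_ends (h.nd f hf)
    rw [sum_congr rfl h2, sum_const, smul_eq_mul, mul_comm]
  have h2 : (2 * ℒ.card) * s ≤ Fintype.card V * (4 * Fintype.card V) := by
    rw [← h1, sum_mul]
    calc ∑ v : V, (ℒ.filter (fun f => v ∈ f.2)).card * s ≤ ∑ v : V, 4 * Fintype.card V :=
          sum_le_sum fun v _ => h.ldeg v
      _ = _ := by rw [sum_const, card_univ, smul_eq_mul]
  nlinarith

/-- the number of reserve edges -/
theorem sk_X (h : Cell X ℒ 𝒞 can c s) : X.card ≤ ℒ.card := by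
  apply card_le_card_of_injOn can
  · intro e he
    exact h.can_mem e he
  · intro e _ e' _ hh
    rw [← h.can_snd e, ← h.can_snd e', hh]

/-- the number of pairs of a label and a cell -/
theorem sk_pairs (h : Cell X ℒ 𝒞 can c s) (Q : Lab V → Prop) [DecidablePred Q] :
    (univ.filter (fun x : {x : Lab V × Finset (Lab V) // x.2 ∈ 𝒞 ∧ x.1 ∈ x.2} =>
      Q x.1.1)).card ≤ c * (ℒ.filter Q).card := by
  apply card_le_mul_card_image_of_maps_to (f := fun x => x.1.1)
  · intro x hx
    rw [mem_filter] at hx ⊢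
    exact ⟨h.sub _ x.2.1 x.2.2, hx.2⟩
  · intro f hf
    refine le_trans ?_ (h.mult f)
    apply card_le_card_of_injOn (fun x => x.1.2)
    · intro x hx
      have hx' := (mem_filter.1 hx).2
      have h1 := x.2
      rw [hx'] at h1
      exact mem_coe.2 (mem_filter.2 h1)
    · intro x hx y hy hh
      have hx' := (mem_filter.1 hx).2
      have hy' := (mem_filter.1 hy).2
      exact Subtype.ext (Prod.ext (hx'.trans hy'.symm) hh)

/-- counting in a sum -/
theorem sk_sum {α β : Type} [Fintype α] [Fintype β] (Q : α ⊕ β → Prop) [DecidablePred Q] :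
    (univ.filter Q).card = (univ.filter (fun a => Q (Sum.inl a))).card +
      (univ.filter (fun b => Q (Sum.inr b))).card := by
  rw [card_filter, Fintype.sum_sum_type, card_filter, card_filter]

theorem sk_pc (h : Cell X ℒ 𝒞 can c s) :
    Fintype.card (PcT X 𝒞) ≤ (c + 2) * ℒ.card := by
  have h1 := sk_pairs h (fun _ => True)
  simp only [filter_true, card_univ] at h1
  have h2 := sk_X h
  rw [Fintype.card_sum, Fintype.card_prod, Fintype.card_fin, Fintype.card_bool]
  nlinarith

theorem sk_st (h : Cell X ℒ 𝒞 can c s) :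
    Fintype.card (StT ℒ 𝒞) ≤ (c + 1) * ℒ.card := by
  have h1 := sk_pairs h (fun _ => True)
  simp only [filter_true, card_univ] at h1
  have h2 : 𝒞.card ≤ Fintype.card {x : Lab V × Finset (Lab V) // x.2 ∈ 𝒞 ∧ x.1 ∈ x.2} := by
    rw [← Fintype.card_coe 𝒞]
    apply Fintype.card_le_of_surjective
      (f := fun x : {x : Lab V × Finset (Lab V) // x.2 ∈ 𝒞 ∧ x.1 ∈ x.2} =>
        (⟨x.1.2, x.2.1⟩ : 𝒞))
    rintro ⟨C, hC⟩
    obtain ⟨f, hf⟩ := h.ne C hC
    exact ⟨⟨(f, C), hC, hf⟩, rfl⟩
  rw [Fintype.card_sum, Fintype.card_coe, Fintype.card_coe]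
  nlinarith

theorem sk_xe {k k' : Fin X.card} (h : xe X k = xe X k') : k = k' := by
  unfold xe at h
  exact X.equivFin.symm.injective (Subtype.ext h)

theorem sk_can (h : Cell X ℒ 𝒞 can c s) {k k' : Fin X.card}
    (hh : can (xe X k) = can (xe X k')) : k = k' := by
  apply sk_xe
  rw [← h.can_snd (xe X k), ← h.can_snd (xe X k'), hh]

theorem sk_gv (h : Cell X ℒ 𝒞 can c s) (p : PcT X 𝒞) :
    gvC X 𝒞 p = ∅ ∨ (gvC X 𝒞 p).card = 2 := by
  rcases p with x | x
  · right
    exact sk_ends (h.nd _ (h.sub _ x.2.1 x.2.2))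
  · left
    rfl

theorem sk_mult (h : Cell X ℒ 𝒞 can c s) (v : V) :
    (univ.filter (fun p => v ∈ gvC X 𝒞 p)).card * s ≤ c * (4 * Fintype.card V) := by
  have h1 := sk_pairs h (fun f => v ∈ f.2)
  have h2 : (univ.filter (fun p => v ∈ gvC X 𝒞 p)).card ≤
      c * (ℒ.filter (fun f => v ∈ f.2)).card := by
    rw [sk_sum]
    have h3 : (univ.filter (fun b : Fin X.card × Bool => v ∈ gvC X 𝒞 (Sum.inr b))) = ∅ := by
      rw [filter_eq_empty_iff]
      intro b _ hb
      exact notMem_empty v hb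
    rw [h3, card_empty, add_zero]
    convert h1 using 3
    simp [gvC]
  have h3 := h.ldeg v
  calc (univ.filter (fun p => v ∈ gvC X 𝒞 p)).card * s
      ≤ (c * (ℒ.filter (fun f => v ∈ f.2)).card) * s := Nat.mul_le_mul_right _ h2
    _ = c * ((ℒ.filter (fun f => v ∈ f.2)).card * s) := by ring
    _ ≤ c * (4 * Fintype.card V) := Nat.mul_le_mul_left _ h3

theorem sk_ok (h : Cell X ℒ 𝒞 can c s) (p : PcT X 𝒞) :
    ∃ T : Finset (StT ℒ 𝒞), T.card ≤ 2 ∧ ∀ t, okC X ℒ 𝒞 can p t → t ∈ T := by
  rcases p with x | x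
  · refine ⟨{Sum.inl ⟨x.1.1, h.sub _ x.2.1 x.2.2⟩, Sum.inr ⟨x.1.2, x.2.1⟩}, card_le_two, ?_⟩
    rintro (f | C) ht
    · have h1 : f.1 = x.1.1 := ht
      rw [mem_insert]
      left
      exact congrArg Sum.inl (Subtype.ext h1)
    · have h1 : C.1 = x.1.2 := ht
      rw [mem_insert, mem_singleton]
      right
      exact congrArg Sum.inr (Subtype.ext h1)
  · have hk : ∀ k : Fin X.card, can (xe X k) ∈ ℒ := fun k =>
      h.can_mem _ (X.equivFin.symm k).2
    by_cases h2 : x.1.1 + 1 < X.card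
    · refine ⟨{Sum.inl ⟨can (xe X x.1), hk _⟩, Sum.inl ⟨can (xe X ⟨x.1.1 + 1, h2⟩), hk _⟩},
        card_le_two, ?_⟩
      rintro (f | C) ht
      · rw [mem_insert, mem_singleton]
        have h1 : f.1 = can (xe X x.1) ∨
          ∃ k : Fin X.card, k.1 = x.1.1 + 1 ∧ f.1 = can (xe X k) := ht
        rcases h1 with h1 | ⟨k, hk1, hk2⟩
        · left
          exact congrArg Sum.inl (Subtype.ext h1)
        · right
          have h3 : k = ⟨x.1.1 + 1, h2⟩ := Fin.ext hk1
          rw [h3] at hk2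
          exact congrArg Sum.inl (Subtype.ext hk2)
      · exact absurd ht id
    · refine ⟨{Sum.inl ⟨can (xe X x.1), hk _⟩}, by simp, ?_⟩
      rintro (f | C) ht
      · rw [mem_singleton]
        have h1 : f.1 = can (xe X x.1) ∨
          ∃ k : Fin X.card, k.1 = x.1.1 + 1 ∧ f.1 = can (xe X k) := ht
        rcases h1 with h1 | ⟨k, hk1, hk2⟩
        · exact congrArg Sum.inl (Subtype.ext h1)
        · exact absurd k.2 (by omega)
      · exact absurd ht id

theorem sk_at (h : Cell X ℒ 𝒞 can c s) (t : StT ℒ 𝒞) :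
    ∃ P : Finset (PcT X 𝒞), P.card ≤ c + 4 ∧ ∀ p, okC X ℒ 𝒞 can p t → p ∈ P := by
  classical
  refine ⟨univ.filter (fun p => okC X ℒ 𝒞 can p t), ?_, fun p hp =>
    mem_filter.2 ⟨mem_univ _, hp⟩⟩
  rw [sk_sum]
  rcases t with f | C
  · have h1 : (univ.filter (fun a : {x : Lab V × Finset (Lab V) // x.2 ∈ 𝒞 ∧ x.1 ∈ x.2} =>
        okC X ℒ 𝒞 can (Sum.inl a) (Sum.inl f))).card ≤ c := by
      refine le_trans ?_ (h.mult f.1)
      apply card_le_card_of_injOn (fun x => x.1.2)
      · intro x hx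
        have hx' : f.1 = x.1.1 := (mem_filter.1 hx).2
        have h1 := x.2
        rw [← hx'] at h1
        exact mem_coe.2 (mem_filter.2 h1)
      · intro x hx y hy hh
        have hx' : f.1 = x.1.1 := (mem_filter.1 hx).2
        have hy' : f.1 = y.1.1 := (mem_filter.1 hy).2
        exact Subtype.ext (Prod.ext (hx'.symm.trans hy') hh)
    have h2 : (univ.filter (fun b : Fin X.card × Bool =>
        okC X ℒ 𝒞 can (Sum.inr b) (Sum.inl f))).card ≤ 4 := by
      have h3 : (univ.filter (fun k : Fin X.card => f.1 = can (xe X k))).card ≤ 1 := by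
        rw [card_le_one]
        intro k hk k' hk'
        exact sk_can h ((mem_filter.1 hk).2.symm.trans (mem_filter.1 hk').2)
      have h4 : (univ.filter (fun j : Fin X.card => ∃ k : Fin X.card, k.1 = j.1 + 1 ∧
          f.1 = can (xe X k))).card ≤ 1 := by
        rw [card_le_one]
        intro j hj j' hj'
        obtain ⟨k, hk1, hk2⟩ := (mem_filter.1 hj).2
        obtain ⟨k', hk1', hk2'⟩ := (mem_filter.1 hj').2
        have h5 := sk_can h (hk2.symm.trans hk2')
        rw [h5] at hk1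
        exact Fin.ext (by omega)
      have h5 : (univ.filter (fun b : Fin X.card × Bool =>
          okC X ℒ 𝒞 can (Sum.inr b) (Sum.inl f))) ⊆
          ((univ.filter (fun k : Fin X.card => f.1 = can (xe X k))) ∪
          (univ.filter (fun j : Fin X.card => ∃ k : Fin X.card, k.1 = j.1 + 1 ∧
            f.1 = can (xe X k)))) ×ˢ univ := by
        intro b hb
        have hb' : f.1 = can (xe X b.1) ∨
          ∃ k : Fin X.card, k.1 = b.1.1 + 1 ∧ f.1 = can (xe X k) := (mem_filter.1 hb).2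
        rw [mem_product, mem_union, mem_filter, mem_filter]
        exact ⟨hb'.imp (fun h => ⟨mem_univ _, h⟩) (fun h => ⟨mem_univ _, h⟩), mem_univ _⟩
      refine (card_le_card h5).trans ?_
      rw [card_product, card_univ, Fintype.card_bool]
      have h6 := card_union_le (univ.filter (fun k : Fin X.card => f.1 = can (xe X k)))
        (univ.filter (fun j : Fin X.card => ∃ k : Fin X.card, k.1 = j.1 + 1 ∧
            f.1 = can (xe X k)))
      omega
    omega
  · have h1 : (univ.filter (fun a : {x : Lab V × Finset (Lab V) // x.2 ∈ 𝒞 ∧ x.1 ∈ x.2} =>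
        okC X ℒ 𝒞 can (Sum.inl a) (Sum.inr C))).card ≤ 4 := by
      refine le_trans ?_ (h.card4 C.1 C.2)
      apply card_le_card_of_injOn (fun x => x.1.1)
      · intro x hx
        have hx' : C.1 = x.1.2 := (mem_filter.1 hx).2
        have h1 := x.2.2
        rw [← hx'] at h1
        exact h1
      · intro x hx y hy hh
        have hx' : C.1 = x.1.2 := (mem_filter.1 hx).2
        have hy' : C.1 = y.1.2 := (mem_filter.1 hy).2
        exact Subtype.ext (Prod.ext hh (hx'.symm.trans hy'))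
    have h2 : (univ.filter (fun b : Fin X.card × Bool =>
        okC X ℒ 𝒞 can (Sum.inr b) (Sum.inr C))) = ∅ := by
      rw [filter_eq_empty_iff]
      intro b _ hb
      exact hb
    rw [h2, card_empty]
    omega

theorem sk_xs {t : StT ℒ 𝒞} {e : Sym2 V} (he : e ∈ xsC X ℒ 𝒞 can t) :
    e ∈ X ∧ ∃ h : can e ∈ ℒ, t = Sum.inl ⟨can e, h⟩ := by
  rcases t with f | C
  · unfold xsC at he
    dsimp only at he
    split_ifs at he with h1
    · rw [mem_singleton] at he
      subst he
      refine ⟨h1.1, ?_⟩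
      rw [h1.2]
      exact ⟨f.2, rfl⟩
    · exact absurd he (notMem_empty _)
  · exact absurd he (notMem_empty _)

end SkG2

theorem skel : SkelStatement := by
  intro c
  refine ⟨100 * (c + 1), ?_⟩
  intro V _ _ X ℒ 𝒞 can s h hst
  have hl := sk_lab h
  refine ⟨{
    gv := gvC X 𝒞
    ok := okC X ℒ 𝒞 can
    xs := xsC X ℒ 𝒞 can
    gv_card := sk_gv h
    π_card := ?_
    σ_card := ?_
    gv_mult := ?_
    ok_le := sk_ok h
    at_le := ?_
    xs_sub := ?_
    xs_card := ?_
    xs_ex := ?_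
    xs_uniq := ?_
    state := hst }⟩
  · calc Fintype.card (PcT X 𝒞) * s ≤ ((c + 2) * ℒ.card) * s :=
          Nat.mul_le_mul_right _ (sk_pc h)
      _ = (c + 2) * (ℒ.card * s) := by ring
      _ ≤ (c + 2) * (2 * Fintype.card V ^ 2) := Nat.mul_le_mul_left _ hl
      _ = (2 * (c + 2)) * Fintype.card V ^ 2 := by ring
      _ ≤ 100 * (c + 1) * Fintype.card V ^ 2 := Nat.mul_le_mul_right _ (by omega)
  · calc Fintype.card (StT ℒ 𝒞) * s ≤ ((c + 1) * ℒ.card) * s :=
          Nat.mul_le_mul_right _ (sk_st h)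
      _ = (c + 1) * (ℒ.card * s) := by ring
      _ ≤ (c + 1) * (2 * Fintype.card V ^ 2) := Nat.mul_le_mul_left _ hl
      _ = (2 * (c + 1)) * Fintype.card V ^ 2 := by ring
      _ ≤ 100 * (c + 1) * Fintype.card V ^ 2 := Nat.mul_le_mul_right _ (by omega)
  · intro v
    calc (univ.filter (fun p => v ∈ gvC X 𝒞 p)).card * s ≤ c * (4 * Fintype.card V) :=
          sk_mult h v
      _ = (4 * c) * Fintype.card V := by ring
      _ ≤ 100 * (c + 1) * Fintype.card V := Nat.mul_le_mul_right _ (by omega)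
  · intro t
    obtain ⟨P, h1, h2⟩ := sk_at h t
    exact ⟨P, by omega, h2⟩
  · intro t e he
    exact (sk_xs he).1
  · intro t
    rw [card_le_one]
    intro e he e' he'
    obtain ⟨_, h1, h2⟩ := sk_xs he
    obtain ⟨_, h3, h4⟩ := sk_xs he'
    rw [h2] at h4
    have h5 : can e = can e' := congrArg Subtype.val (Sum.inl.inj h4)
    rw [← h.can_snd e, ← h.can_snd e', h5]
  · intro e he
    refine ⟨Sum.inl ⟨can e, h.can_mem e he⟩, ?_⟩
    have h1 : (can e).2 ∈ X ∧ can (can e).2 = can e := by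
      rw [h.can_snd]
      exact ⟨he, rfl⟩
    have h2 : xsC X ℒ 𝒞 can (Sum.inl ⟨can e, h.can_mem e he⟩) =
        if (can e).2 ∈ X ∧ can (can e).2 = can e then {(can e).2} else ∅ := rfl
    rw [h2, if_pos h1, mem_singleton, h.can_snd]
  · intro t t' e he he'
    obtain ⟨_, h1, h2⟩ := sk_xs he
    obtain ⟨_, h3, h4⟩ := sk_xs he'
    rw [h2, h4]

end F2.O
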