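import Pool.Agent.F2.O.Asm
import Pool.Agent.F2.O.EmbW
import Pool.Agent.F2.O.EmbA
import Pool.Agent.F2.O.Abs
import Pool.Agent.F2.O.Fin
import Pool.Agent.F2.O.CellG
import Pool.Agent.F2.O.Skel

/-!
# Project F2, block O: the omni-absorber
-/

set_option autoImplicit false
set_option linter.unusedSectionVars false

namespace F2.O

open Finset NW F1

theorem Emb.mono {V : Type} [Fintype V] [DecidableEq V] {H X : Finset (Sym2 V)} {s C : ℕ}
    {π σ : Type} [Fintype π] [Fintype σ] [DecidableEq π] [DecidableEq σ]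
    {S : Skel V X s C π σ} {W : π → Finset (Sym2 V)} {A : σ → Finset (Sym2 V)} {U : σ → Finset V}
    {c c' : ℕ} (h : Emb H X s C S W A U c) (hc : c ≤ c') : Emb H X s C S W A U c' where
  W_sub := h.W_sub
  W_piece := h.W_piece
  W_disj := h.W_disj
  A_sub := h.A_sub
  A_disj := h.A_disj
  A_card := fun t => (h.A_card t).trans hc
  A_abs := h.A_abs
  U_W := h.U_W
  U_x := h.U_x
  W_deg := fun v => (h.W_deg v).trans (Nat.mul_le_mul_right _ hc)
  A_deg := fun v => (h.A_deg v).trans (Nat.mul_le_mul_right _ hc)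

theorem emb_of (h1 : EmbWStatement) (h2 : EmbAStatement) : EmbStatement := by
  intro ε C hε
  obtain ⟨cW, s₁, k1⟩ := h1 ε C hε
  obtain ⟨cA, s₂, k2⟩ := h2 ε C cW hε
  refine ⟨max cW cA, max s₁ s₂, ?_⟩
  intro V _ _ E s ro co π σ _ _ _ _ S hNL hG hs hc hd
  have e1 : cW * s ≤ Fintype.card V := (Nat.mul_le_mul_right _ (le_max_left _ _)).trans hc
  have e2 : cA * s ≤ Fintype.card V := (Nat.mul_le_mul_right _ (le_max_right _ _)).trans hc
  obtain ⟨W, w1, w2, w3, w4⟩ := k1 V E s ro co π σ S hNL hG ((le_max_left _ _).trans hs) e1 hd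
  obtain ⟨A, U, hE⟩ := k2 V E s ro co π σ S hNL hG ((le_max_right _ _).trans hs) e2 hd W w1 w2 w3 w4
  exact ⟨W, A, U, hE.mono (le_max_right _ _)⟩

/-- the omni-absorber, from the remaining four modules -/
theorem omni_of' (hG : GreedyStatement) (hH : HostStatement) (hP : PieceStatement)
    (hT : StateStatement) : OmniStatement :=
  omni_of (emb_of (embW hG hH hP) (embA hG hH abs)) fin cell skel hT hH

end F2.O
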