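import Pool.Agent.F2.Spec

/-!
# Project F2, block O (omni-absorber): definitions and statements

See note F2-O on MP_6a0350_co.
-/

set_option autoImplicit false
set_option linter.unusedSectionVars false

namespace F2.O

open Finset NW F1

section Defs

variable {V : Type} [Fintype V] [DecidableEq V]

/-- the vertices of a set of edges -/
def vE (A : Finset (Sym2 V)) : Finset V := univ.filter (fun v => ∃ e ∈ A, v ∈ e)

/-- a piece: a path of three edges between the two elements of `g`, or (`g = ∅`) a cycle of four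
edges; only the number of edges and the parities of the degrees are recorded -/
structure Piece (g : Finset V) (W : Finset (Sym2 V)) : Prop where
  nl : NL W
  card4 : g = ∅ → W.card = 4
  card3 : g ≠ ∅ → W.card = 3
  odd : ∀ x, Odd (NW.deg W x) ↔ x ∈ g

/-- `A` absorbs all divisible graphs on `U` -/
structure Absorbs (U : Finset V) (A : Finset (Sym2 V)) : Prop where
  dec : Dec A
  new : ∀ e ∈ A, ∃ v ∈ e, v ∉ U
  abs : ∀ D, D ⊆ U.sym2 → Divis D → Dec (A ∪ D)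

end Defs

/-! ## Embedding -/

/-- O-A: the greedy algorithm -/
def GreedyStatement : Prop :=
  ∀ (c₀ c₂ : ℕ) (η : ℝ), 0 < η → ∃ c₁ : ℕ,
    ∀ (V : Type) [Fintype V] [DecidableEq V] (H : Finset (Sym2 V)) (s : ℕ) (ι : Type) [Fintype ι]
      [DecidableEq ι] (G : ι → Finset V) (P : ι → Finset (Sym2 V) → Prop),
      1 ≤ s → s ≤ Fintype.card V → Fintype.card ι * s ≤ c₀ * Fintype.card V ^ 2 →
      (∀ v, (univ.filter (fun i => v ∈ G i)).card * s ≤ c₀ * Fintype.card V) →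
      (∀ (i : ι) (Z : Finset (Sym2 V)) (F : Finset V),
        (∀ v, NW.deg Z v * s ≤ c₁ * Fintype.card V) → (F.card : ℝ) ≤ η * Fintype.card V →
        ∃ A, A ⊆ H \ Z ∧ A.card ≤ c₂ ∧ (∀ v ∈ vE A, v ∈ G i ∨ v ∉ F) ∧ P i A) →
      ∃ A : ι → Finset (Sym2 V), (∀ i, A i ⊆ H ∧ (A i).card ≤ c₂ ∧ P i (A i)) ∧
        (∀ i j, i ≠ j → Disjoint (A i) (A j)) ∧
        ∀ v, NW.deg (univ.biUnion A) v * s ≤ c₁ * Fintype.card V

/-- O-B: common neighbours in the host -/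
def HostStatement : Prop :=
  ∀ (ε : ℝ) (c₁ : ℕ), 0 < ε → ∃ s₀ : ℕ, 1 ≤ s₀ ∧
    ∀ (V : Type) [Fintype V] [DecidableEq V] (E : Finset (Sym2 V)) (s : ℕ) (ro co : V → ℕ),
      NW.NL E → Grid E s ro co → s₀ ≤ s →
      (∀ v, (3 / 4 + ε) * (Fintype.card V : ℝ) ≤ (NW.deg E v : ℝ)) →
      (∀ v, NW.deg (Xs ro co E) v * s ≤ 4 * Fintype.card V) ∧
      ∀ (Z : Finset (Sym2 V)) (S F : Finset V), S.card ≤ 4 →
        (∀ v, NW.deg Z v * s ≤ c₁ * Fintype.card V) → (F.card : ℝ) ≤ ε * Fintype.card V →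
        ε * (Fintype.card V : ℝ) ≤ ((cnbr ((E \ Xs ro co E) \ Z) S F).card : ℝ)

/-- O-C: pieces exist -/
def PieceStatement : Prop :=
  ∀ (V : Type) [Fintype V] [DecidableEq V] (E : Finset (Sym2 V)) (g F : Finset V), NW.NL E →
    (g = ∅ ∨ g.card = 2) → (∀ S : Finset V, S.card ≤ 4 → 8 ≤ (cnbr E S F).card) →
    ∃ W, W ⊆ E ∧ Piece g W ∧ ∀ v ∈ vE W, v ∈ g ∨ v ∉ F

/-- O-D: absorbers which avoid a set of vertices -/
def AbsStatement : Prop :=
  ∀ m : ℕ, ∃ C : ℕ,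
    ∀ (V : Type) [Fintype V] [DecidableEq V] (E : Finset (Sym2 V)) (U F : Finset V), NW.NL E →
      U.card ≤ m → (∀ S : Finset V, S.card ≤ 4 → C ≤ (cnbr E S (F ∪ U)).card) →
      ∃ A, A ⊆ E ∧ A.card ≤ C ∧ (∀ v ∈ vE A, v ∈ U ∨ v ∉ F) ∧ Absorbs U A

/-! ## The skeleton -/

/-- pieces `π` and sites `σ`. `gv p`: the ends of the piece; `ok p t`: the piece `p` may be used
at the site `t`; `xs t`: the reserve edges which belong to the site `t` -/
structure Skel (V : Type) [Fintype V] [DecidableEq V] (X : Finset (Sym2 V)) (s C : ℕ)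
    (π σ : Type) [Fintype π] [Fintype σ] [DecidableEq π] [DecidableEq σ] where
  gv : π → Finset V
  ok : π → σ → Prop
  xs : σ → Finset (Sym2 V)
  gv_card : ∀ p, gv p = ∅ ∨ (gv p).card = 2
  π_card : Fintype.card π * s ≤ C * Fintype.card V ^ 2
  σ_card : Fintype.card σ * s ≤ C * Fintype.card V ^ 2
  gv_mult : ∀ v, (univ.filter (fun p => v ∈ gv p)).card * s ≤ C * Fintype.card V
  ok_le : ∀ p, ∃ T : Finset σ, T.card ≤ 2 ∧ ∀ t, ok p t → t ∈ T
  at_le : ∀ t, ∃ P : Finset π, P.card ≤ C ∧ ∀ p, ok p t → p ∈ P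
  xs_sub : ∀ t, xs t ⊆ X
  xs_card : ∀ t, (xs t).card ≤ 1
  xs_ex : ∀ e ∈ X, ∃ t, e ∈ xs t
  xs_uniq : ∀ t t' e, e ∈ xs t → e ∈ xs t' → t = t'
  state : ∀ W : π → Finset (Sym2 V), (∀ p, Piece (gv p) (W p)) →
    (∀ p q, p ≠ q → Disjoint (W p) (W q)) → (∀ p, Disjoint (W p) X) →
    ∀ L, L ⊆ X → Divis (univ.biUnion W ∪ L) →
      ∃ loc : π → σ, (∀ p, ok p (loc p)) ∧
        ∀ t, Divis ((univ.filter (fun p => loc p = t)).biUnion W ∪ (L ∩ xs t))

/-- O-E: embedding of a skeleton -/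
structure Emb {V : Type} [Fintype V] [DecidableEq V] (H X : Finset (Sym2 V)) (s C : ℕ)
    {π σ : Type} [Fintype π] [Fintype σ] [DecidableEq π] [DecidableEq σ]
    (S : Skel V X s C π σ) (W : π → Finset (Sym2 V)) (A : σ → Finset (Sym2 V)) (U : σ → Finset V)
    (c : ℕ) : Prop where
  W_sub : ∀ p, W p ⊆ H
  W_piece : ∀ p, Piece (S.gv p) (W p)
  W_disj : ∀ p q, p ≠ q → Disjoint (W p) (W q)
  A_sub : ∀ t, A t ⊆ H \ univ.biUnion W
  A_disj : ∀ t t', t ≠ t' → Disjoint (A t) (A t')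
  A_card : ∀ t, (A t).card ≤ c
  A_abs : ∀ t, Absorbs (U t) (A t)
  U_W : ∀ p t, S.ok p t → vE (W p) ⊆ U t
  U_x : ∀ t, vE (S.xs t) ⊆ U t
  W_deg : ∀ v, NW.deg (univ.biUnion W) v * s ≤ c * Fintype.card V
  A_deg : ∀ v, NW.deg (univ.biUnion A) v * s ≤ c * Fintype.card V

def EmbStatement : Prop :=
  ∀ (ε : ℝ) (C : ℕ), 0 < ε → ∃ c s₀ : ℕ,
    ∀ (V : Type) [Fintype V] [DecidableEq V] (E : Finset (Sym2 V)) (s : ℕ) (ro co : V → ℕ)
      (π σ : Type) [Fintype π] [Fintype σ] [DecidableEq π] [DecidableEq σ]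
      (S : Skel V (Xs ro co E) s C π σ),
      NW.NL E → Grid E s ro co → s₀ ≤ s → c * s ≤ Fintype.card V →
      (∀ v, (3 / 4 + ε) * (Fintype.card V : ℝ) ≤ (NW.deg E v : ℝ)) →
      ∃ (W : π → Finset (Sym2 V)) (A : σ → Finset (Sym2 V)) (U : σ → Finset V),
        Emb (E \ Xs ro co E) (Xs ro co E) s C S W A U c

/-- O-F: an embedded skeleton is an omni-absorber -/
def FinStatement : Prop :=
  ∀ (C c : ℕ), ∃ C' : ℕ,
    ∀ (V : Type) [Fintype V] [DecidableEq V] (H X : Finset (Sym2 V)) (s : ℕ)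
      (π σ : Type) [Fintype π] [Fintype σ] [DecidableEq π] [DecidableEq σ]
      (S : Skel V X s C π σ) (W : π → Finset (Sym2 V)) (A : σ → Finset (Sym2 V))
      (U : σ → Finset V), NW.NL H → NW.NL X → Disjoint H X →
      (∀ v, NW.deg X v * s ≤ 4 * Fintype.card V) → Emb H X s C S W A U c →
      ∃ (B : Finset (Sym2 V)) (RT : Finset (Tri V)), B ⊆ H ∧
        (∀ r ∈ RT, NW.edg r.1 ⊆ B ∪ X) ∧
        (∀ v, NW.deg B v * s ≤ C' * Fintype.card V) ∧
        (∀ v, (RT.filter (fun r => v ∈ r.1)).card * s ≤ C' * Fintype.card V) ∧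
        (∀ e, (RT.filter (fun r => e ∈ NW.edg r.1)).card ≤ C') ∧
        ∀ L, L ⊆ X → NW.Divis (B ∪ L) →
          ∃ 𝒯 : Finset (Tri V), 𝒯 ⊆ RT ∧
            (∀ T ∈ 𝒯, ∀ T' ∈ 𝒯, T ≠ T' → Disjoint (NW.edg T.1) (NW.edg T'.1)) ∧
            𝒯.biUnion (fun T => NW.edg T.1) = B ∪ L

/-! ## Existence of the skeleton -/

/-- the labels -/
noncomputable def labs {V : Type} [Fintype V] [DecidableEq V] (ro co : V → ℕ) : Finset (Lab V) := by
  classical exact univ.filter (fun f => IsLab ro co f)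

/-- a system of labels and cells; `can e` is the canonical label of the reserve edge `e` -/
structure Cell {V : Type} [Fintype V] [DecidableEq V] (X : Finset (Sym2 V)) (ℒ : Finset (Lab V))
    (𝒞 : Finset (Finset (Lab V))) (can : Sym2 V → Lab V) (c s : ℕ) : Prop where
  nl : NL X
  nd : ∀ f ∈ ℒ, ¬ f.2.IsDiag
  can_mem : ∀ e ∈ X, can e ∈ ℒ
  can_snd : ∀ e, (can e).2 = e
  sub : ∀ C ∈ 𝒞, C ⊆ ℒ
  ne : ∀ C ∈ 𝒞, C.Nonempty
  card4 : ∀ C ∈ 𝒞, C.card ≤ 4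
  even : ∀ C ∈ 𝒞, ∀ v, Even (C.filter (fun f => v ∈ f.2)).card
  mult : ∀ f, (𝒞.filter (fun C => f ∈ C)).card ≤ c
  span : ∀ ℓ, ℓ ⊆ ℒ → (∀ v, Even (ℓ.filter (fun f => v ∈ f.2)).card) →
    ∃ S, S ⊆ 𝒞 ∧ ∀ f, f ∈ ℓ ↔ Odd (S.filter (fun C => f ∈ C)).card
  ldeg : ∀ v, (ℒ.filter (fun f => v ∈ f.2)).card * s ≤ 4 * Fintype.card V

/-- O-G1: the grid cells form a system of cells -/
def CellStatement : Prop :=
  ∀ (V : Type) [Fintype V] [DecidableEq V] (E : Finset (Sym2 V)) (s : ℕ) (ro co : V → ℕ),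
    NW.NL E → Grid E s ro co → 1 ≤ s → 1 ≤ Fintype.card V →
    ∃ (𝒞 : Finset (Finset (Lab V))) (can : Sym2 V → Lab V),
      Cell (Xs ro co E) (labs ro co) 𝒞 can 32 s

section Con

variable {V : Type} [Fintype V] [DecidableEq V] (X : Finset (Sym2 V)) (ℒ : Finset (Lab V))
  (𝒞 : Finset (Finset (Lab V))) (can : Sym2 V → Lab V)

/-- the pieces: a path for every label of every cell, two cycles for every reserve edge -/
abbrev PcT : Type := {x : Lab V × Finset (Lab V) // x.2 ∈ 𝒞 ∧ x.1 ∈ x.2} ⊕ (Fin X.card × Bool)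

/-- the sites: labels and cells -/
abbrev StT : Type := {f : Lab V // f ∈ ℒ} ⊕ {C : Finset (Lab V) // C ∈ 𝒞}

noncomputable instance instDecPcT : DecidableEq (PcT X 𝒞) := Classical.decEq _

/-- the `k`-th reserve edge -/
noncomputable def xe (k : Fin X.card) : Sym2 V := (X.equivFin.symm k : Sym2 V)

/-- the ends of the pieces -/
def gvC : PcT X 𝒞 → Finset V
  | Sum.inl x => univ.filter (fun v => v ∈ x.1.1.2)
  | Sum.inr _ => ∅

/-- the sites of the pieces -/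
def okC : PcT X 𝒞 → StT ℒ 𝒞 → Prop
  | Sum.inl x, Sum.inl f => f.1 = x.1.1
  | Sum.inl x, Sum.inr C => C.1 = x.1.2
  | Sum.inr x, Sum.inl f => f.1 = can (xe X x.1) ∨
      ∃ k : Fin X.card, k.1 = x.1.1 + 1 ∧ f.1 = can (xe X k)
  | Sum.inr _, Sum.inr _ => False

/-- the reserve edges of the sites -/
def xsC : StT ℒ 𝒞 → Finset (Sym2 V)
  | Sum.inl f => if f.1.2 ∈ X ∧ can f.1.2 = f.1 then {f.1.2} else ∅
  | Sum.inr _ => ∅

/-- O-G3: the states -/
def StateC : Prop :=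
  ∀ W : PcT X 𝒞 → Finset (Sym2 V), (∀ p, Piece (gvC X 𝒞 p) (W p)) →
    (∀ p q, p ≠ q → Disjoint (W p) (W q)) → (∀ p, Disjoint (W p) X) →
    ∀ L, L ⊆ X → Divis (univ.biUnion W ∪ L) →
      ∃ loc : PcT X 𝒞 → StT ℒ 𝒞, (∀ p, okC X ℒ 𝒞 can p (loc p)) ∧
        ∀ t, Divis ((univ.filter (fun p => loc p = t)).biUnion W ∪ (L ∩ xsC X ℒ 𝒞 can t))

end Con

/-- O-G2: the skeleton of a system of cells, all fields except the states -/
def SkelStatement : Prop :=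
  ∀ c : ℕ, ∃ C : ℕ,
    ∀ (V : Type) [Fintype V] [DecidableEq V] (X : Finset (Sym2 V)) (ℒ : Finset (Lab V))
      (𝒞 : Finset (Finset (Lab V))) (can : Sym2 V → Lab V) (s : ℕ), Cell X ℒ 𝒞 can c s →
      StateC X ℒ 𝒞 can → Nonempty (Skel V X s C (PcT X 𝒞) (StT ℒ 𝒞))

/-- O-G3: the states exist -/
def StateStatement : Prop :=
  ∀ (V : Type) [Fintype V] [DecidableEq V] (X : Finset (Sym2 V)) (ℒ : Finset (Lab V))
    (𝒞 : Finset (Finset (Lab V))) (can : Sym2 V → Lab V) (c s : ℕ), Cell X ℒ 𝒞 can c s →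
    StateC X ℒ 𝒞 can

end F2.O
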