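import Pool.Agent.F2.O.Spec
import Pool.Agent.NW.AbsB

/-!
# Project F2, block O, row G3 (helper89): auxiliary lemmas
-/

set_option autoImplicit false
set_option linter.unusedSectionVars false

namespace F2.O

open Finset NW F1

/-! ### the distribution of the cycles -/

/-- the cycle `b` is forwarded -/
def g3fw (c : ZMod 3) (b : Bool) : Prop := (b = false ∧ c ≠ 0) ∨ (b = true ∧ c = 2)

instance (c : ZMod 3) (b : Bool) : Decidable (g3fw c b) := by
  unfold g3fw
  infer_instance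

theorem g3fw_sum (c : ZMod 3) :
    (if g3fw c false then (1 : ZMod 3) else 0) + (if g3fw c true then 1 else 0) = c := by
  revert c
  decide

theorem g3fw_zero (b : Bool) : ¬ g3fw 0 b := by
  revert b
  decide

/-- the target of a cycle -/
def g3tau {M : ℕ} (cc : ℕ → ZMod 3) (y : Fin M × Bool) : Fin M :=
  if h : g3fw (cc (y.1.1 + 1)) y.2 ∧ y.1.1 + 1 < M then ⟨y.1.1 + 1, h.2⟩ else y.1

theorem g3tau_sum {M : ℕ} (cc : ℕ → ZMod 3) (h0 : cc 0 = 0) (hM : cc M = 0) (m : Fin M) :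
    ∑ y : Fin M × Bool, (if g3tau cc y = m then (1 : ZMod 3) else 0) =
      2 - cc (m.1 + 1) + cc m.1 := by
  have hlt : ∀ (k : Fin M) (b : Bool), g3fw (cc (k.1 + 1)) b → k.1 + 1 < M := by
    intro k b h
    rcases Nat.lt_or_ge (k.1 + 1) M with h1 | h1
    · exact h1
    · exfalso
      have h2 : k.1 + 1 = M := by have := k.2; omega
      rw [h2, hM] at h
      exact g3fw_zero b h
  have hk : ∀ (k : Fin M) (b : Bool), (if g3tau cc (k, b) = m then (1 : ZMod 3) else 0) =
      (if k = m then (if g3fw (cc (k.1 + 1)) b then 0 else 1) else 0) +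
      (if k.1 + 1 = m.1 then (if g3fw (cc (k.1 + 1)) b then 1 else 0) else 0) := by
    intro k b
    unfold g3tau
    by_cases hf : g3fw (cc (k.1 + 1)) b
    · have h1 := hlt k b hf
      rw [dif_pos ⟨hf, h1⟩]
      simp only [hf, if_true]
      have h2 : (if k = m then (0 : ZMod 3) else 0) = 0 := by split_ifs <;> rfl
      rw [h2, zero_add]
      congr 1
      exact propext ⟨fun h => by rw [← h], fun h => Fin.ext h⟩
    · rw [dif_neg (fun h => hf h.1)]
      simp only [hf, if_false]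
      have h2 : (if k.1 + 1 = m.1 then (0 : ZMod 3) else 0) = 0 := by split_ifs <;> rfl
      rw [h2, add_zero]
  rw [Fintype.sum_prod_type]
  have h1 : ∀ k : Fin M, ∑ b : Bool, (if g3tau cc (k, b) = m then (1 : ZMod 3) else 0) =
      (if k = m then 2 - cc (k.1 + 1) else 0) + (if k.1 + 1 = m.1 then cc (k.1 + 1) else 0) := by
    intro k
    rw [Fintype.sum_bool, hk, hk]
    have h2 := g3fw_sum (cc (k.1 + 1))
    have h3 : (if g3fw (cc (k.1 + 1)) true then (0 : ZMod 3) else 1) +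
        (if g3fw (cc (k.1 + 1)) false then 0 else 1) = 2 - cc (k.1 + 1) := by
      generalize cc (k.1 + 1) = c
      revert c
      decide
    by_cases ha : k = m
    · by_cases hb : k.1 + 1 = m.1
      · exfalso
        rw [ha] at hb
        omega
      · simp only [ha, if_true]
        have hb' : ¬ (m.1 + 1 = m.1) := by omega
        simp only [hb', if_false, add_zero]
        rw [← ha]
        exact h3
    · by_cases hb : k.1 + 1 = m.1
      · simp only [ha, hb, if_true, if_false, zero_add]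
        rw [← hb, add_comm]
        exact h2
      · simp only [ha, hb, if_false, add_zero]
  rw [Finset.sum_congr rfl fun k _ => h1 k, Finset.sum_add_distrib]
  congr 1
  · rw [Finset.sum_ite_eq' univ m (fun k => 2 - cc (k.1 + 1)), if_pos (mem_univ m)]
  · rcases Nat.eq_zero_or_pos m.1 with hm | hm
    · rw [hm, h0]
      refine Finset.sum_eq_zero fun k _ => ?_
      rw [if_neg (by omega)]
    · have h4 : m.1 - 1 < M := by have := m.2; omega
      rw [Finset.sum_eq_single (⟨m.1 - 1, h4⟩ : Fin M)]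
      · have h5 : m.1 - 1 + 1 = m.1 := by omega
        simp only [h5, if_true]
      · intro k _ hk'
        rw [if_neg]
        intro h6
        apply hk'
        apply Fin.ext
        show k.1 = m.1 - 1
        omega
      · intro h
        exact absurd (mem_univ _) h

/-- prefix sums -/
def g3cc {M : ℕ} (x : Fin M → ZMod 3) (n : ℕ) : ZMod 3 := ∑ j : Fin M, if j.1 < n then x j else 0

theorem g3cc_zero {M : ℕ} (x : Fin M → ZMod 3) : g3cc x 0 = 0 := by
  unfold g3cc
  refine Finset.sum_eq_zero fun k _ => ?_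
  rw [if_neg (by omega)]

theorem g3cc_top {M : ℕ} (x : Fin M → ZMod 3) : g3cc x M = ∑ j, x j := by
  unfold g3cc
  refine Finset.sum_congr rfl fun k _ => ?_
  rw [if_pos k.2]

theorem g3cc_succ {M : ℕ} (x : Fin M → ZMod 3) (m : Fin M) :
    g3cc x (m.1 + 1) = g3cc x m.1 + x m := by
  unfold g3cc
  have h1 : ∀ j : Fin M, (if j.1 < m.1 + 1 then x j else 0) =
      (if j.1 < m.1 then x j else 0) + (if j = m then x j else 0) := by
    intro j
    by_cases h : j = m
    · subst h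
      simp
    · have h2 : j.1 ≠ m.1 := fun h3 => h (Fin.ext h3)
      by_cases h4 : j.1 < m.1
      · rw [if_pos (by omega), if_pos h4, if_neg h, add_zero]
      · rw [if_neg (by omega), if_neg h4, if_neg h, add_zero]
  rw [Finset.sum_congr rfl fun k _ => h1 k, Finset.sum_add_distrib,
    Finset.sum_ite_eq' univ m x, if_pos (mem_univ m)]

/-! ### degrees and cardinalities -/

section G3

variable {V : Type} [Fintype V] [DecidableEq V] {X : Finset (Sym2 V)} {ℒ : Finset (Lab V)}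
  {𝒞 : Finset (Finset (Lab V))} {can : Sym2 V → Lab V}

theorem g3_card {ι : Type} {W : ι → Finset (Sym2 V)} (P : Finset ι)
    (hd : ∀ p q, p ≠ q → Disjoint (W p) (W q)) (hX : ∀ p, Disjoint (W p) X)
    {L : Finset (Sym2 V)} (hL : L ⊆ X) :
    (P.biUnion W ∪ L).card = ∑ p ∈ P, (W p).card + L.card := by
  classical
  rw [card_union_of_disjoint, card_biUnion]
  · intro p _ q _ h
    exact hd p q h
  · rw [disjoint_biUnion_left]
    intro p _
    exact (hX p).mono_right hL

theorem g3_deg {ι : Type} {W : ι → Finset (Sym2 V)} (P : Finset ι)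
    (hd : ∀ p q, p ≠ q → Disjoint (W p) (W q)) (hX : ∀ p, Disjoint (W p) X)
    {L : Finset (Sym2 V)} (hL : L ⊆ X) (v : V) :
    NW.deg (P.biUnion W ∪ L) v = ∑ p ∈ P, NW.deg (W p) v + NW.deg L v := by
  classical
  rw [← Ab.card_inc, ← Ab.card_inc, filter_union, filter_biUnion]
  have h1 : ∀ p q, p ≠ q → Disjoint ((W p).filter fun d => v ∈ d) ((W q).filter fun d => v ∈ d) :=
    fun p q h => (hd p q h).mono (filter_subset _ _) (filter_subset _ _)
  have h2 : ∀ p, Disjoint ((W p).filter fun d => v ∈ d) X :=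
    fun p => (hX p).mono_left (filter_subset _ _)
  rw [g3_card P h1 h2 ((filter_subset _ _).trans hL)]
  congr 1
  exact sum_congr rfl fun p _ => Ab.card_inc _ _

theorem g3_degz {g : Finset V} {A : Finset (Sym2 V)} (h : Piece g A) (v : V) :
    ((NW.deg A v : ℕ) : ZMod 2) = if v ∈ g then 1 else 0 := by
  have h1 := h.odd v
  split_ifs with hv
  · exact ZMod.natCast_eq_one_iff_odd.2 (h1.2 hv)
  · refine ZMod.natCast_eq_zero_iff_even.2 ?_
    rw [← Nat.not_odd_iff_even]
    exact fun h2 => hv (h1.1 h2)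

/-- divisibility of a union of pieces and reserve edges -/
theorem g3_divis {ι : Type} {W : ι → Finset (Sym2 V)} {gv : ι → Finset V} (P : Finset ι)
    (hW : ∀ p, Piece (gv p) (W p))
    (hd : ∀ p q, p ≠ q → Disjoint (W p) (W q)) (hX : ∀ p, Disjoint (W p) X) (hn : NL X)
    {L : Finset (Sym2 V)} (hL : L ⊆ X) :
    Divis (P.biUnion W ∪ L) ↔
      (∀ v, ∑ p ∈ P, (if v ∈ gv p then (1 : ZMod 2) else 0) + (NW.deg L v : ZMod 2) = 0) ∧
      ∑ p ∈ P, ((W p).card : ZMod 3) + (L.card : ZMod 3) = 0 := by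
  have h1 : ∀ v, ((NW.deg (P.biUnion W ∪ L) v : ℕ) : ZMod 2) =
      ∑ p ∈ P, (if v ∈ gv p then (1 : ZMod 2) else 0) + (NW.deg L v : ZMod 2) := by
    intro v
    rw [g3_deg P hd hX hL, Nat.cast_add, Nat.cast_sum]
    congr 1
    exact sum_congr rfl fun p _ => g3_degz (hW p) v
  have h2 : (((P.biUnion W ∪ L).card : ℕ) : ZMod 3) =
      ∑ p ∈ P, ((W p).card : ZMod 3) + (L.card : ZMod 3) := by
    rw [g3_card P hd hX hL, Nat.cast_add, Nat.cast_sum]
  rw [← h2, ZMod.natCast_eq_zero_iff]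
  constructor
  · rintro ⟨-, h3, h4⟩
    refine ⟨fun v => ?_, h4⟩
    rw [← h1 v]
    exact ZMod.natCast_eq_zero_iff_even.2 (h3 v)
  · rintro ⟨h3, h4⟩
    refine ⟨?_, fun v => ?_, h4⟩
    · intro e he
      rcases mem_union.1 he with he | he
      · obtain ⟨p, -, hp⟩ := mem_biUnion.1 he
        exact (hW p).nl e hp
      · exact hn e (hL he)
    · apply ZMod.natCast_eq_zero_iff_even.1
      rw [h1 v]
      exact h3 v

/-- sums over the paths -/
theorem g3_sum_paths {R : Type} [AddCommMonoid R] (g : Lab V → Finset (Lab V) → R) :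
    ∑ x : {x : Lab V × Finset (Lab V) // x.2 ∈ 𝒞 ∧ x.1 ∈ x.2}, g x.1.1 x.1.2 =
      ∑ C ∈ 𝒞, ∑ f ∈ C, g f C := by
  classical
  have h1 : ∑ x ∈ (univ : Finset (Lab V × Finset (Lab V))).filter
      (fun x => x.2 ∈ 𝒞 ∧ x.1 ∈ x.2), g x.1 x.2 =
      ∑ x : {x : Lab V × Finset (Lab V) // x.2 ∈ 𝒞 ∧ x.1 ∈ x.2}, g x.1.1 x.1.2 :=
    Finset.sum_subtype ((univ : Finset (Lab V × Finset (Lab V))).filter
      (fun x => x.2 ∈ 𝒞 ∧ x.1 ∈ x.2))
      (fun x => by rw [mem_filter]; exact and_iff_right (mem_univ x))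
      (fun x : Lab V × Finset (Lab V) => g x.1 x.2)
  rw [← h1, Finset.sum_filter, Fintype.sum_prod_type_right, ← Finset.sum_filter_add_sum_filter_not
    univ (fun C : Finset (Lab V) => C ∈ 𝒞)]
  have h2 : ∑ C ∈ univ.filter (fun C : Finset (Lab V) => C ∉ 𝒞), ∑ f : Lab V,
      (if C ∈ 𝒞 ∧ f ∈ C then g f C else 0) = 0 := by
    refine Finset.sum_eq_zero fun C hC => Finset.sum_eq_zero fun f _ => ?_
    rw [if_neg]
    exact fun h => (mem_filter.1 hC).2 h.1
  rw [h2, add_zero, Finset.filter_mem_eq_inter, Finset.univ_inter]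
  refine Finset.sum_congr rfl fun C hC => ?_
  have h3 : ∀ f : Lab V, (if C ∈ 𝒞 ∧ f ∈ C then g f C else 0) = if f ∈ C then g f C else 0 := by
    intro f
    by_cases hf : f ∈ C
    · rw [if_pos ⟨hC, hf⟩, if_pos hf]
    · rw [if_neg (fun h => hf h.2), if_neg hf]
  rw [Finset.sum_congr rfl fun f _ => h3 f, ← Finset.sum_filter, Finset.filter_mem_eq_inter,
    Finset.univ_inter]

/-- the residues of the cardinalities of the pieces -/
theorem g3_card_inl {A : Finset (Sym2 V)} (x : {x : Lab V × Finset (Lab V) // x.2 ∈ 𝒞 ∧ x.1 ∈ x.2})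
    (h : Piece (gvC X 𝒞 (Sum.inl x)) A) : ((A.card : ℕ) : ZMod 3) = 0 := by
  have h1 : gvC X 𝒞 (Sum.inl x) ≠ ∅ := by
    obtain ⟨a, ha⟩ : ∃ a, a ∈ x.1.1.2 := ⟨x.1.1.2.out.1, Sym2.out_fst_mem _⟩
    apply Finset.Nonempty.ne_empty
    exact ⟨a, mem_filter.2 ⟨mem_univ a, ha⟩⟩
  rw [h.card3 h1]
  decide

theorem g3_card_inr {A : Finset (Sym2 V)} (y : Fin X.card × Bool)
    (h : Piece (gvC X 𝒞 (Sum.inr y)) A) : ((A.card : ℕ) : ZMod 3) = 1 := by
  rw [h.card4 rfl]
  decide

theorem g3_cast_filter (C : Finset (Lab V)) (v : V) :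
    ∑ f ∈ C, (if v ∈ f.2 then (1 : ZMod 2) else 0) =
      (((C.filter (fun f => v ∈ f.2)).card : ℕ) : ZMod 2) := by
  rw [Finset.card_filter, Nat.cast_sum]
  refine sum_congr rfl fun f _ => ?_
  split_ifs <;> simp

theorem g3_gv (v : V) (x : {x : Lab V × Finset (Lab V) // x.2 ∈ 𝒞 ∧ x.1 ∈ x.2}) :
    (if v ∈ gvC X 𝒞 (Sum.inl x) then (1 : ZMod 2) else 0) = if v ∈ x.1.1.2 then 1 else 0 := by
  have h1 : v ∈ gvC X 𝒞 (Sum.inl x) ↔ v ∈ x.1.1.2 := by
    show v ∈ univ.filter (fun v => v ∈ x.1.1.2) ↔ _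
    rw [mem_filter]
    exact and_iff_right (mem_univ v)
  by_cases h : v ∈ x.1.1.2
  · rw [if_pos (h1.2 h), if_pos h]
  · rw [if_neg (fun h2 => h (h1.1 h2)), if_neg h]

theorem g3_gv' (v : V) (y : Fin X.card × Bool) :
    (if v ∈ gvC X 𝒞 (Sum.inr y) then (1 : ZMod 2) else 0) = 0 := by
  rw [if_neg]
  exact Finset.notMem_empty v

end G3

end F2.O
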